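import Pool.Agent.H71.DB.CocC
import Pool.Agent.H71.DB.Sym

/-!
# Elimination: detecting torsion in tensor products
-/

set_option autoImplicit false

open Matrix
open scoped Classical

universe t u v w

namespace Pool.Agent.H71.DB

open Pool.Agent.H71.FJ (IdemMat K0 K0.mk K0.map K0.map_map K0.push K0.rk LiftSys IsPrim isPrim_map
  LT LT_rep LT_eq_sum exists_rep_lift dlt dlt_comm cyc_comm)
open Pool.Agent.H95.WH (K1 K1.mk K1.map K1.map_mk FamSub conjHom FinSub)

section Sep

variable {B : Type u} [AddCommGroup B]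

/-- Homomorphisms to `ℚ` detect elements of infinite order. -/
theorem exists_hom_rat (b : B) (hb : ∀ m : ℤ, m ≠ 0 → m • b ≠ 0) : ∃ μ : B →+ ℚ, μ b ≠ 0 := by
  by_contra hcon
  push Not at hcon
  have h1 : ∀ f : Module.Dual ℚ (TensorProduct ℤ ℚ B), f (TensorProduct.mk ℤ ℚ B 1 b) = 0 := by
    intro f
    exact hcon (f.toAddMonoidHom.comp (TensorProduct.mk ℤ ℚ B 1).toAddMonoidHom)
  rw [Module.forall_dual_apply_eq_zero_iff ℚ] at h1
  obtain ⟨m, hm⟩ := (IsLocalizedModule.eq_zero_iff (nonZeroDivisors ℤ)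
    (TensorProduct.mk ℤ ℚ B 1)).1 h1
  exact hb m (nonZeroDivisors.coe_ne_zero m) hm

end Sep

section Elim

variable {A : Type u} [AddCommGroup A] {B : Type v} [AddCommGroup B] {E : Type w}
  [AddCommGroup E]

theorem exists_common_denom {N : ℕ} (q : Fin N → ℚ) :
    ∃ (m : ℤ) (a : Fin N → ℤ), m ≠ 0 ∧ ∀ j, (m : ℚ) * q j = a j := by
  refine ⟨((∏ j, (q j).den : ℕ) : ℤ), fun j => (∏ l ∈ Finset.univ.erase j, ((q l).den : ℤ)) *
    (q j).num, ?_, ?_⟩
  · have h : (∏ j, (q j).den : ℕ) ≠ 0 := Finset.prod_ne_zero_iff.2 fun j _ => (q j).den_nz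
    exact_mod_cast h
  · intro j
    have h1 : (∏ l, ((q l).den : ℚ)) =
        (∏ l ∈ Finset.univ.erase j, ((q l).den : ℚ)) * (q j).den := by
      rw [Finset.prod_erase_mul _ _ (Finset.mem_univ j)]
    have h2 : ((q j).den : ℚ) * q j = (q j).num := Rat.den_mul_eq_num (q j)
    push_cast
    rw [h1, mul_assoc, h2]

theorem elim (β : A →+ B →+ E) (N : ℕ) : ∀ (y : Fin N → A) (b : Fin N → B),
    (∀ (μ : B →+ ℚ) (m : ℤ) (a : Fin N → ℤ), m ≠ 0 → (∀ j, (m : ℚ) * μ (b j) = a j) →
      ∃ m' : ℤ, m' ≠ 0 ∧ m' • ∑ j, a j • y j = 0) →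
    ∃ m : ℤ, m ≠ 0 ∧ m • ∑ j, β (y j) (b j) = 0 := by
  induction N with
  | zero => exact fun y b _ => ⟨1, one_ne_zero, by simp⟩
  | succ N ih =>
    intro y b h
    by_cases hb : ∀ m : ℤ, m ≠ 0 → m • b 0 ≠ 0
    · obtain ⟨μ0, hμ0⟩ := exists_hom_rat (b 0) hb
      obtain ⟨m0, a, hm0, ha⟩ := exists_common_denom (fun j => μ0 (b j))
      have ha0 : a 0 ≠ 0 := by
        intro h0
        have h1 := ha 0
        rw [h0, Int.cast_zero] at h1
        rcases mul_eq_zero.1 h1 with h2 | h2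
        · exact hm0 (by exact_mod_cast h2)
        · exact hμ0 h2
      obtain ⟨m', hm', h1⟩ := h μ0 m0 a hm0 ha
      obtain ⟨m, hm, h2⟩ := ih (fun j => y j.succ) (fun j => a 0 • b j.succ - a j.succ • b 0) (by
        intro μ m a' hm ha'
        let μ' : B →+ ℚ := a 0 • μ - (AddMonoidHom.mulLeft ((m0 : ℚ) * μ (b 0))).comp μ0
        have hμ' : ∀ x, μ' x = (a 0 : ℚ) * μ x - (m0 : ℚ) * μ (b 0) * μ0 x := by
          intro x
          change a 0 • μ x - _ = _
          rw [zsmul_eq_mul]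
          rfl
        obtain ⟨m'', hm'', h3⟩ := h μ' m (Fin.cons 0 a') hm (by
          intro j
          refine Fin.cases ?_ (fun j => ?_) j
          · rw [Fin.cons_zero, hμ', Int.cast_zero, ← ha 0]
            ring
          · rw [Fin.cons_succ, ← ha' j, hμ', map_sub, map_zsmul, map_zsmul, zsmul_eq_mul,
              zsmul_eq_mul, ← ha j.succ]
            ring)
        refine ⟨m'', hm'', ?_⟩
        rw [Fin.sum_univ_succ] at h3
        simpa using h3)
      refine ⟨m * (m' * a 0), mul_ne_zero hm (mul_ne_zero hm' ha0), ?_⟩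
      have h4 : m' • (∑ j : Fin N, β (y j.succ) (a 0 • b j.succ - a j.succ • b 0)) =
          (m' * a 0) • ∑ j, β (y j) (b j) := by
        have h5 : ∑ j : Fin N, β (y j.succ) (a 0 • b j.succ - a j.succ • b 0) =
            a 0 • ∑ j : Fin N, β (y j.succ) (b j.succ) -
              β (∑ j : Fin N, a j.succ • y j.succ) (b 0) := by
          rw [Finset.smul_sum, map_sum, AddMonoidHom.finsetSum_apply, ← Finset.sum_sub_distrib]
          refine Finset.sum_congr rfl fun j _ => ?_
          rw [map_sub, map_zsmul, map_zsmul, map_zsmul, AddMonoidHom.coe_smul, Pi.smul_apply]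
        have h6 : m' • β (∑ j : Fin N, a j.succ • y j.succ) (b 0) =
            -((m' * a 0) • β (y 0) (b 0)) := by
          have h7 := congrArg (fun x => β x (b 0)) h1
          simp only [map_zero, AddMonoidHom.zero_apply] at h7
          rw [Fin.sum_univ_succ, smul_add, map_add, AddMonoidHom.add_apply, map_zsmul, map_zsmul,
            AddMonoidHom.coe_smul, Pi.smul_apply, map_zsmul, AddMonoidHom.coe_smul,
            Pi.smul_apply, smul_smul, AddMonoidHom.coe_smul, Pi.smul_apply] at h7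
          exact eq_neg_of_add_eq_zero_right h7
        rw [h5, smul_sub, h6, sub_neg_eq_add, smul_smul, Fin.sum_univ_succ, smul_add]
        abel
      rw [mul_smul, ← h4, smul_comm, h2, smul_zero]
    · push Not at hb
      obtain ⟨r, hr, hrb⟩ := hb
      obtain ⟨m, hm, h2⟩ := ih (fun j => y j.succ) (fun j => b j.succ) (by
        intro μ m a' hm ha'
        have hμ0 : μ (b 0) = 0 := by
          have h1 := congrArg μ hrb
          rw [map_zsmul, map_zero, zsmul_eq_mul] at h1
          rcases mul_eq_zero.1 h1 with h2 | h2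
          · exact absurd (by exact_mod_cast h2) hr
          · exact h2
        obtain ⟨m'', hm'', h3⟩ := h μ m (Fin.cons 0 a') hm (by
          intro j
          refine Fin.cases ?_ (fun j => ?_) j
          · rw [Fin.cons_zero, hμ0, mul_zero, Int.cast_zero]
          · rw [Fin.cons_succ, ← ha' j])
        refine ⟨m'', hm'', ?_⟩
        rw [Fin.sum_univ_succ] at h3
        simpa using h3)
      refine ⟨m * r, mul_ne_zero hm hr, ?_⟩
      rw [Fin.sum_univ_succ, smul_add, mul_smul, mul_comm m r, mul_smul r m, h2, smul_zero,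
        add_zero, ← map_zsmul, hrb, map_zero, smul_zero]

/-- The same for families indexed by a finite type. -/
theorem elim' (β : A →+ B →+ E) {ι : Type*} [Fintype ι] (y : ι → A) (b : ι → B)
    (h : ∀ (μ : B →+ ℚ) (m : ℤ) (a : ι → ℤ), m ≠ 0 → (∀ j, (m : ℚ) * μ (b j) = a j) →
      ∃ m' : ℤ, m' ≠ 0 ∧ m' • ∑ j, a j • y j = 0) :
    ∃ m : ℤ, m ≠ 0 ∧ m • ∑ j, β (y j) (b j) = 0 := by
  let e := Fintype.equivFin ι
  obtain ⟨m, hm, h1⟩ := elim β (Fintype.card ι) (fun j => y (e.symm j)) (fun j => b (e.symm j)) (by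
    intro μ m a hm ha
    obtain ⟨m', hm', h2⟩ := h μ m (fun j => a (e j)) hm (fun j => by
      have := ha (e j)
      rwa [e.symm_apply_apply] at this)
    refine ⟨m', hm', ?_⟩
    rw [← h2]
    congr 1
    rw [← e.sum_comp]
    exact Finset.sum_congr rfl fun j _ => by rw [e.symm_apply_apply])
  refine ⟨m, hm, ?_⟩
  rw [← h1]
  congr 1
  rw [← e.symm.sum_comp]

end Elim

section Det

variable {k : Type u} [Field k] {K : Type t} [Field K] (L : BLift K) (i : k →+* K)
  {D : Type w} [Group D] [Fintype D] [IsCyclic D] {B : Type v} [AddCommGroup B] {E : Type*}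
  [AddCommGroup E]

/-- Detection of torsion in `K₀(k[D]) ⊗ B`. -/
theorem det_tensor (hD : ∀ h : D, (orderOf h : k) ≠ 0)
    (hsep : ∀ b : B, (∀ ν : B →+ L.Lam, ν b = 0) → ∃ m : ℤ, m ≠ 0 ∧ m • b = 0)
    (β : K0 (MonoidAlgebra k D) →+ B →+ E) {ι : Type*} [Fintype ι]
    (y : ι → K0 (MonoidAlgebra k D)) (b : ι → B) (M : ℤ) (hM : M ≠ 0)
    (h : ∀ (n : ℕ) (c : D) (ν : B →+ L.Lam), (M : L.sys.B n) *
      ∑ j, L.th n (ν (b j)) * LT L.sys n i (dlt (L.sys.B n) c) (dlt_comm _ c) (y j) = 0) :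
    ∃ m : ℤ, m ≠ 0 ∧ m • ∑ j, β (y j) (b j) = 0 := by
  have : Module.Finite k (MonoidAlgebra k D) := inferInstance
  apply elim' β y b
  intro μ m a hm ha
  refine ⟨1, one_ne_zero, ?_⟩
  rw [one_smul]
  apply K0.eq_zero_of_rk_push (k := k)
  intro J _ _ ρ
  let R : ι → ℤ := fun j => K0.rk (K0.push (ρ : MonoidAlgebra k D →+* Matrix J J k) (y j))
  have hR : K0.rk (K0.push (ρ : MonoidAlgebra k D →+* Matrix J J k) (∑ j, a j • y j)) =
      ∑ j, a j * R j := by
    rw [map_sum, map_sum]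
    refine Finset.sum_congr rfl fun j _ => ?_
    rw [map_zsmul, map_zsmul, smul_eq_mul]
  rw [hR]
  have h1 : ∀ ν : B →+ L.Lam, ν (∑ j, R j • b j) = 0 := by
    intro ν
    apply L.tf M _ hM
    apply L.joint
    intro n
    have hDK : ∀ h : D, (orderOf h : K) ≠ 0 := by
      intro h h0
      apply hD h
      rw [← map_natCast i, map_eq_zero_iff _ i.injective] at h0
      exact h0
    obtain ⟨ρ', hρ'⟩ := exists_rep_lift (L.sys.surj n) (L.sys.nil n) (D := D) hDK
      ((i.mapMatrix : Matrix J J k →+* Matrix J J K).toMonoidHom.comp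
          ((ρ : MonoidAlgebra k D →* Matrix J J k).comp (MonoidAlgebra.of k D)))
    have h2 : ∀ j, (R j : L.sys.B n) = ∑ c : D, trace (ρ' c) *
        LT L.sys n i (dlt (L.sys.B n) c) (dlt_comm _ c) (y j) := by
      intro j
      rw [← LT_eq_sum L.sys n i cyc_comm (fun c => trace (ρ' c)) (fun a b => by
        simp only [map_mul]
        exact trace_mul_comm _ _) (y j)]
      exact LT_rep L.sys n i ρ ρ' hρ' (y j)
    rw [map_mul, map_intCast, map_sum, map_sum]
    have h3 : ∑ j, L.th n (ν (R j • b j)) = ∑ c : D, trace (ρ' c) *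
        ∑ j, L.th n (ν (b j)) * LT L.sys n i (dlt (L.sys.B n) c) (dlt_comm _ c) (y j) := by
      have e1 : ∀ j, L.th n (ν (R j • b j)) = ∑ c : D, trace (ρ' c) * (L.th n (ν (b j)) *
          LT L.sys n i (dlt (L.sys.B n) c) (dlt_comm _ c) (y j)) := by
        intro j
        rw [map_zsmul, zsmul_eq_mul, map_mul, map_intCast, h2, Finset.sum_mul]
        refine Finset.sum_congr rfl fun c _ => ?_
        ring
      rw [Finset.sum_congr rfl fun j _ => e1 j, Finset.sum_comm]
      refine Finset.sum_congr rfl fun c _ => ?_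
      rw [Finset.mul_sum]
    rw [h3, Finset.mul_sum]
    refine Finset.sum_eq_zero fun c _ => ?_
    rw [mul_left_comm, h n c ν, mul_zero]
  obtain ⟨m', hm', h2⟩ := hsep _ h1
  have h3 : μ (∑ j, R j • b j) = 0 := by
    have h4 := congrArg μ h2
    rw [map_zsmul, map_zero, zsmul_eq_mul] at h4
    rcases mul_eq_zero.1 h4 with h5 | h5
    · exact absurd (by exact_mod_cast h5) hm'
    · exact h5
  have h4 : ((∑ j, a j * R j : ℤ) : ℚ) = 0 := by
    rw [map_sum] at h3
    push_cast
    have h5 : ∑ j, (a j : ℚ) * (R j : ℚ) = (m : ℚ) * ∑ j, μ (R j • b j) := by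
      rw [Finset.mul_sum]
      refine Finset.sum_congr rfl fun j _ => ?_
      rw [map_zsmul, zsmul_eq_mul, ← ha j]
      ring
    rw [h5, h3, mul_zero]
  exact_mod_cast h4

end Det

end Pool.Agent.H71.DB
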