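import Pool.Agent.H71.DB.Bass
import Pool.Agent.H71.DO.Defs

/-!
# Elements of `K₁(S[G])` from `K₀(S[H])` and an element of `G` commuting with the image of `H`

For a homomorphism `f : H → G` and `z ∈ G` commuting with the image of `f` the map
`gbass S f z : K₀(S[H]) → K₁(S[G])` sends the class of an idempotent matrix `e` to the class of the
invertible matrix `1 + f(e) (z - 1)`.
-/

set_option autoImplicit false

open Matrix

universe u v w

namespace Pool.Agent.H71.DB

open Pool.Agent.H71.FJ (MatEquiv IdemMat K0 K0.mk K0.lift K0.lift_mk K0.hom_ext K0.map)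
open Pool.Agent.H95.WH (K1 K1.mk K1.map K1.map_mk)
open Pool.Agent.H71.DO (grpUnit)

section GBass

variable (S : Type u) [CommRing S] {H : Type v} [Group H] {G : Type w} [Group G]

theorem grpUnit_val (z : G) : (grpUnit S G z : MonoidAlgebra S G) = MonoidAlgebra.single z 1 := rfl

theorem comm_grp (f : H →* G) (z : G) (h : ∀ a, f a * z = z * f a) (b : MonoidAlgebra S H) :
    MonoidAlgebra.mapDomainRingHom S f b * (grpUnit S G z : MonoidAlgebra S G) =
      (grpUnit S G z : MonoidAlgebra S G) * MonoidAlgebra.mapDomainRingHom S f b := by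
  induction b using MonoidAlgebra.induction_linear with
  | zero => simp
  | add a b ha hb => rw [map_add, add_mul, mul_add, ha, hb]
  | single a r =>
    change MonoidAlgebra.mapDomain f (MonoidAlgebra.single a r) * MonoidAlgebra.single z 1 =
      MonoidAlgebra.single z 1 * MonoidAlgebra.mapDomain f (MonoidAlgebra.single a r)
    rw [MonoidAlgebra.mapDomain_single, MonoidAlgebra.single_mul_single,
      MonoidAlgebra.single_mul_single, h, mul_one, one_mul]

/-- The homomorphism `K₀(S[H]) → K₁(S[G])` defined by `f : H → G` and an element `z` of `G` which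
commutes with the image of `f`. -/
noncomputable def gbass (f : H →* G) (z : G) (h : ∀ a, f a * z = z * f a) :
    K0 (MonoidAlgebra S H) →+ K1 (MonoidAlgebra S G) :=
  bass (MonoidAlgebra.mapDomainRingHom S f) (grpUnit S G z) (comm_grp S f z h)

theorem gbass_congr (f : H →* G) {z z' : G} (hz : z = z') (h : ∀ a, f a * z = z * f a)
    (h' : ∀ a, f a * z' = z' * f a) : gbass S f z h = gbass S f z' h' := by
  subst hz
  rfl

theorem gbass_mul (f : H →* G) (z z' : G) (h : ∀ a, f a * z = z * f a)
    (h' : ∀ a, f a * z' = z' * f a) (h'' : ∀ a, f a * (z * z') = z * z' * f a)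
    (x : K0 (MonoidAlgebra S H)) :
    gbass S f (z * z') h'' x = gbass S f z h x + gbass S f z' h' x := by
  have e : grpUnit S G (z * z') = grpUnit S G z * grpUnit S G z' := map_mul _ _ _
  rw [gbass, gbass, gbass, ← bass_mul _ _ _ _ _ (fun b => by rw [← e]; exact comm_grp S f _ h'' b)]
  congr 1
  simp only [e]

theorem gbass_one (f : H →* G) (h : ∀ a, f a * 1 = 1 * f a) (x : K0 (MonoidAlgebra S H)) :
    gbass S f 1 h x = 0 := by
  have e := gbass_mul S f 1 1 h h (fun a => by rw [one_mul]; exact h a) x
  rw [gbass_congr S f (one_mul (1 : G)) _ h] at e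
  exact left_eq_add.1 e

theorem pow_comm' {f : H →* G} {z : G} (h : ∀ a, f a * z = z * f a) (n : ℕ) (a : H) :
    f a * z ^ n = z ^ n * f a := ((show Commute (f a) z from h a).pow_right n)

theorem gbass_pow (f : H →* G) (z : G) (h : ∀ a, f a * z = z * f a) (n : ℕ)
    (x : K0 (MonoidAlgebra S H)) :
    gbass S f (z ^ n) (pow_comm' h n) x = n • gbass S f z h x := by
  induction n with
  | zero =>
    rw [zero_smul, gbass_congr S f (pow_zero z) _ (fun a => by rw [one_mul, mul_one])]
    exact gbass_one S f _ x
  | succ n ih =>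
    rw [gbass_congr S f (pow_succ z n) _ (fun a => by rw [← pow_succ]; exact pow_comm' h _ a),
      gbass_mul S f _ _ (pow_comm' h n) h, ih, succ_nsmul]

theorem gbass_comp {H' : Type*} [Group H'] (f : H →* G) (g : H' →* H) (z : G)
    (h : ∀ a, f a * z = z * f a) (x : K0 (MonoidAlgebra S H')) :
    gbass S f z h (K0.map (MonoidAlgebra.mapDomainRingHom S g) x) =
      gbass S (f.comp g) z (fun a => h (g a)) x := by
  rw [gbass, bass_comp, gbass]
  congr 1
  simp only [← MonoidAlgebra.mapDomainRingHom_comp]

theorem map_gbass {T : Type*} [CommRing T] (θ : S →+* T) (f : H →* G) (z : G)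
    (h : ∀ a, f a * z = z * f a) (x : K0 (MonoidAlgebra S H)) :
    K1.map (MonoidAlgebra.mapRingHom G θ) (gbass S f z h x) =
      gbass T f z h (K0.map (MonoidAlgebra.mapRingHom H θ) x) := by
  have e : (Units.map ((MonoidAlgebra.mapRingHom G θ : MonoidAlgebra S G →+* MonoidAlgebra T G) :
      MonoidAlgebra S G →* MonoidAlgebra T G)) (grpUnit S G z) = grpUnit T G z := by
    apply Units.ext
    change MonoidAlgebra.mapRingHom G θ (MonoidAlgebra.single z 1) = MonoidAlgebra.single z 1
    rw [MonoidAlgebra.mapRingHom_single, map_one]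
  have e2 : (MonoidAlgebra.mapRingHom G θ).comp (MonoidAlgebra.mapDomainRingHom S f) =
      (MonoidAlgebra.mapDomainRingHom T f).comp (MonoidAlgebra.mapRingHom H θ) :=
    MonoidAlgebra.mapRingHom_comp_mapDomainRingHom _ _
  rw [gbass, map_bass _ _ _ _ (fun b => by
    rw [e, e2]; exact comm_grp T f z h _), gbass, bass_comp]
  congr 1
  simp only [e, e2]

theorem gbass_conj (f f' : H →* G) (z z' g : G) (h : ∀ a, f a * z = z * f a)
    (h' : ∀ a, f' a * z' = z' * f' a) (hf : ∀ a, f' a = g * f a * g⁻¹) (hz : z' = g * z * g⁻¹)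
    (x : K0 (MonoidAlgebra S H)) : gbass S f' z' h' x = gbass S f z h x := by
  have ginv : (((grpUnit S G g)⁻¹ : (MonoidAlgebra S G)ˣ) : MonoidAlgebra S G) =
      MonoidAlgebra.single g⁻¹ 1 := by
    rw [← map_inv]
    rfl
  apply bass_conj _ _ _ _ (grpUnit S G g)
  · intro b
    rw [ginv]
    induction b using MonoidAlgebra.induction_linear with
    | zero => simp
    | add a b ha hb => rw [map_add, ha, hb, map_add, mul_add, add_mul]
    | single a r =>
      change MonoidAlgebra.mapDomain f' (MonoidAlgebra.single a r) = MonoidAlgebra.single g 1 *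
        MonoidAlgebra.mapDomain f (MonoidAlgebra.single a r) * MonoidAlgebra.single g⁻¹ 1
      rw [MonoidAlgebra.mapDomain_single, MonoidAlgebra.mapDomain_single,
        MonoidAlgebra.single_mul_single, MonoidAlgebra.single_mul_single, hf, mul_one, one_mul]
  · rw [ginv]
    change MonoidAlgebra.single z' 1 = MonoidAlgebra.single g 1 * MonoidAlgebra.single z 1 *
      MonoidAlgebra.single g⁻¹ 1
    rw [MonoidAlgebra.single_mul_single, MonoidAlgebra.single_mul_single, hz, mul_one, mul_one]

end GBass

end Pool.Agent.H71.DB
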