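import Pool.Agent.H71.DB.Tors2
import Pool.Agent.H71.DO.Red

/-!
# Rational injectivity of the full assembly map in degree one
-/

set_option autoImplicit false

open Matrix
open scoped Classical

universe t u v w

namespace Pool.Agent.H71.DB

open Pool.Agent.H71.FJ (K0 Sat Sat_of_smul mem_Sat)
open Pool.Agent.H95.WH (K1 K1.mk K1.unit K1.map K1.map_mk FamSub conjHom FinSub)

section Bridge

variable (R : Type u) [CommRing R] (G : Type v) [Group G]

/-- The assembly map on the colimit with values in `K₁(R[G])`. -/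
noncomputable def asm1 : ColimK1 R G →+ K1 (MonoidAlgebra R G) := assembly1 R G

/-- The class in the colimit. -/
noncomputable def cl1 (F : FamSub G FinSub) : K1 (MonoidAlgebra R F.1) →+ ColimK1 R G :=
  (QuotientAddGroup.mk' (colimRel1 R G)).comp (inc1 R G F)

theorem asm1_cl (F : FamSub G FinSub) (x : K1 (MonoidAlgebra R F.1)) :
    asm1 R G (cl1 R G F x) = K1.map (MonoidAlgebra.mapDomainRingHom R F.1.subtype) x := by
  change assemblySum1 R G (inc1 R G F x) = _
  rw [assemblySum1_inc]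
  rfl

theorem cl1_conj (F F' : FamSub G FinSub) (g : G) (h : ∀ x ∈ F.1, g * x * g⁻¹ ∈ F'.1)
    (x : K1 (MonoidAlgebra R F.1)) :
    cl1 R G F' (K1.map (MonoidAlgebra.mapDomainRingHom R (conjHom g F.1 F'.1 h)) x) =
      cl1 R G F x := by
  have h1 : rel1 R G F F' g h x ∈ colimRel1 R G := AddSubgroup.subset_closure ⟨F, F', g, h, x, rfl⟩
  have h2 : QuotientAddGroup.mk' (colimRel1 R G) (rel1 R G F F' g h x) = 0 :=
    (QuotientAddGroup.eq_zero_iff _).2 h1
  rw [rel1, map_sub, sub_eq_zero] at h2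
  exact h2

/-- The projection as a homomorphism to the colimit. -/
noncomputable def toColim1 : SumK1 R G →+ ColimK1 R G := QuotientAddGroup.mk' (colimRel1 R G)

theorem colim1_induction {P : ColimK1 R G → Prop} (h0 : P 0)
    (h1 : ∀ (F : FamSub G FinSub) (x : K1 (MonoidAlgebra R F.1)), P (cl1 R G F x))
    (h2 : ∀ a b, P a → P b → P (a + b)) (z : ColimK1 R G) : P z := by
  obtain ⟨y, rfl⟩ : ∃ y, toColim1 R G y = z := QuotientAddGroup.mk_surjective z
  induction y using sum1_induction with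
  | h0 => rw [map_zero]; exact h0
  | h1 F x => exact h1 F x
  | h2 x y hx hy => rw [map_add]; exact h2 _ _ hx hy

/-- `SumK1 → ColimWh` -/
noncomputable def toWhSum : SumK1 R G →+ DO.ColimWh R G FinSub :=
  sumLift1 R G fun F : FamSub G FinSub =>
    ((DO.cl R G FinSub F).comp (DO.Wh.mk R F.1) : K1 (MonoidAlgebra R F.1) →+ _)

theorem toWhSum_inc (F : FamSub G FinSub) (x : K1 (MonoidAlgebra R F.1)) :
    toWhSum R G (inc1 R G F x) = DO.cl R G FinSub F (DO.Wh.mk R F.1 x) :=
  sumLift1_inc R G _ F x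

/-- `ColimK1 → ColimWh` -/
noncomputable def toWh : ColimK1 R G →+ DO.ColimWh R G FinSub :=
  QuotientAddGroup.lift (colimRel1 R G) (toWhSum R G)
    (by
      rw [colimRel1, AddSubgroup.closure_le]
      rintro z ⟨F, F', g, h, x, rfl⟩
      change toWhSum R G _ = 0
      rw [rel1, map_sub, toWhSum_inc, toWhSum_inc, sub_eq_zero]
      exact DO.cl_conj R G FinSub F F' g h (DO.Wh.mk R F.1 x))

theorem toWh_cl (F : FamSub G FinSub) (x : K1 (MonoidAlgebra R F.1)) :
    toWh R G (cl1 R G F x) = DO.cl R G FinSub F (DO.Wh.mk R F.1 x) :=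
  toWhSum_inc R G F x

theorem assembly_toWh (a : ColimK1 R G) :
    DO.assembly R G FinSub (toWh R G a) = DO.Wh.mk R G (asm1 R G a) := by
  induction a using colim1_induction with
  | h0 => simp only [map_zero]
  | h2 a b ha hb => rw [map_add, map_add, map_add, map_add, ha, hb]
  | h1 F x =>
    rw [toWh_cl, DO.assembly_cl, asm1_cl]
    rfl

/-- the torsion subgroup of the colimit -/
noncomputable def tor1 : AddSubgroup (ColimK1 R G) := Sat ⊥

theorem mem_tor1 {a : ColimK1 R G} : a ∈ tor1 R G ↔ ∃ m : ℤ, m ≠ 0 ∧ m • a = 0 := Iff.rfl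

/-- the projection modulo torsion -/
noncomputable def mt : ColimK1 R G →+ ColimK1 R G ⧸ tor1 R G := QuotientAddGroup.mk' (tor1 R G)

theorem mt_eq_zero {a : ColimK1 R G} : mt R G a = 0 ↔ a ∈ tor1 R G :=
  QuotientAddGroup.eq_zero_iff a

theorem whRel_le (F : FamSub G FinSub) :
    DO.WhRel R F.1 ≤ ((mt R G).comp (cl1 R G F)).ker := by
  have : Finite F.1 := F.2
  rw [DO.WhRel, AddSubgroup.closure_le]
  rintro z (hz | ⟨g, rfl⟩)
  · rw [Set.mem_singleton_iff] at hz
    rw [hz]
    change mt R G (cl1 R G F _) = 0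
    rw [mt_eq_zero, mem_tor1]
    refine ⟨2, two_ne_zero, ?_⟩
    rw [← map_zsmul]
    have h1 : (2 : ℤ) • K1.unit (-1 : (MonoidAlgebra R F.1)ˣ) = 0 := by
      have h2 := DO.K1_unit_pow (-1 : (MonoidAlgebra R F.1)ˣ) 2
      rw [neg_one_sq, DO.K1_unit_one] at h2
      rw [h2]
      exact (natCast_zsmul _ 2)
    rw [h1, map_zero]
  · change mt R G (cl1 R G F _) = 0
    rw [mt_eq_zero, mem_tor1]
    refine ⟨(orderOf g : ℕ), by exact_mod_cast (orderOf_pos g).ne', ?_⟩
    rw [← map_zsmul, natCast_zsmul, ← DO.K1_unit_pow, ← map_pow, pow_orderOf_eq_one, map_one,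
      DO.K1_unit_one, map_zero]

/-- The component at one subgroup. -/
noncomputable def fromWhF (F : FamSub G FinSub) : DO.Wh R F.1 →+ ColimK1 R G ⧸ tor1 R G :=
  QuotientAddGroup.lift (DO.WhRel R F.1) ((mt R G).comp (cl1 R G F)) (whRel_le R G F)

theorem fromWhF_mk (F : FamSub G FinSub) (x : K1 (MonoidAlgebra R F.1)) :
    fromWhF R G F (DO.Wh.mk R F.1 x) = mt R G (cl1 R G F x) := rfl

/-- `SumWh → ColimK1` modulo torsion -/
noncomputable def fromWhSum : DO.SumWh R G FinSub →+ ColimK1 R G ⧸ tor1 R G :=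
  DirectSum.toAddMonoid fun F : FamSub G FinSub => fromWhF R G F

theorem fromWhSum_inc (F : FamSub G FinSub) (x : DO.Wh R F.1) :
    fromWhSum R G (DO.inc R G FinSub F x) = fromWhF R G F x := by
  rw [fromWhSum, DO.inc, DirectSum.toAddMonoid_of]

/-- `ColimWh → ColimK1` modulo torsion -/
noncomputable def fromWh : DO.ColimWh R G FinSub →+ ColimK1 R G ⧸ tor1 R G :=
  QuotientAddGroup.lift (DO.colimRel R G FinSub) (fromWhSum R G)
    (by
      rw [DO.colimRel, AddSubgroup.closure_le]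
      rintro z ⟨F, F', g, h, x, rfl⟩
      obtain ⟨x, rfl⟩ := DO.Wh.mk_surjective R x
      change fromWhSum R G _ = 0
      rw [DO.rel, map_sub, fromWhSum_inc, fromWhSum_inc, DO.Wh.map_mk, fromWhF_mk, fromWhF_mk,
        sub_eq_zero]
      exact congrArg (mt R G) (cl1_conj R G F F' g h x))

theorem fromWh_toWh (a : ColimK1 R G) : fromWh R G (toWh R G a) = mt R G a := by
  induction a using colim1_induction with
  | h0 => simp only [map_zero]
  | h2 a b ha hb => rw [map_add, map_add, map_add, ha, hb]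
  | h1 F x =>
    rw [toWh_cl]
    exact (fromWhSum_inc R G F (DO.Wh.mk R F.1 x)).trans (fromWhF_mk R G F x)

theorem torsion_colim1 {R : Type u} [CommRing R] [IsDomain R] (hA : DO.HArt.{u, v} R)
    (hU : DO.HUnit.{u, v} R) (G : Type v) [Group G] (a : ColimK1 R G) (M : ℤ) (hM : M ≠ 0)
    (h : M • asm1 R G a = 0) : ∃ m : ℤ, m ≠ 0 ∧ m • a = 0 := by
  obtain ⟨m, hm, h1⟩ := DO.kernel_torsion_fin hA hU G (toWh R G a) M hM (by
    rw [assembly_toWh, ← map_zsmul, h, map_zero])
  rw [← map_zsmul] at h1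
  have h2 := congrArg (fromWh R G) h1
  rw [fromWh_toWh, map_zero, mt_eq_zero, mem_tor1] at h2
  obtain ⟨m', hm', h3⟩ := h2
  exact ⟨m' * m, mul_ne_zero hm' hm, by rw [mul_smul, h3]⟩

end Bridge

section Main

theorem lTensor_injective {A : Type u} [AddCommGroup A] {B : Type v} [AddCommGroup B]
    (f : A →+ B) (h : ∀ (z : A) (M : ℤ), M ≠ 0 → M • f z = 0 → ∃ m : ℤ, m ≠ 0 ∧ m • z = 0) :
    Function.Injective (LinearMap.lTensor ℚ f.toIntLinearMap) := by
  rw [injective_iff_map_eq_zero]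
  intro y hy
  obtain ⟨⟨z, m⟩, hz⟩ := IsLocalizedModule.surj (nonZeroDivisors ℤ)
    (TensorProduct.mk ℤ ℚ A 1) y
  have h1 : TensorProduct.mk ℤ ℚ B 1 (f z) = 0 := by
    have h2 : LinearMap.lTensor ℚ f.toIntLinearMap (TensorProduct.mk ℤ ℚ A 1 z) = 0 := by
      have h3 := congrArg (LinearMap.lTensor ℚ f.toIntLinearMap) hz
      rw [Submonoid.smul_def, map_smul, hy, smul_zero] at h3
      exact h3.symm
    exact h2
  obtain ⟨M, hM⟩ := (IsLocalizedModule.eq_zero_iff (nonZeroDivisors ℤ)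
    (TensorProduct.mk ℤ ℚ B 1)).1 h1
  obtain ⟨m', hm', h4⟩ := h z M (nonZeroDivisors.coe_ne_zero M) hM
  have h5 : TensorProduct.mk ℤ ℚ A 1 z = 0 :=
    (IsLocalizedModule.eq_zero_iff (nonZeroDivisors ℤ)
      (TensorProduct.mk ℤ ℚ A 1)).2 ⟨⟨m', mem_nonZeroDivisors_of_ne_zero hm'⟩, h4⟩
  have h6 : m • y = m • 0 := by rw [hz, h5, smul_zero]
  exact IsLocalizedModule.smul_injective (TensorProduct.mk ℤ ℚ A 1) m h6

/-- The full assembly map with values in `K₁(k[G])`. -/
noncomputable def fullA (R : Type u) [CommRing R] (G : Type v) [Group G] :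
    ColimK1 R G × H1K0 R G →+ K1 (MonoidAlgebra R G) := fullAssembly R G

variable {k : Type u} [Field k] {K : Type t} [Field K] (L : BLift K) (i : k →+* K)
  {G : Type v} [Group G]

theorem vanOn_asm1 {P : G → Prop} (a : ColimK1 k G) : VanOn L i P (asm1 k G a) := by
  induction a using colim1_induction with
  | h0 => rw [map_zero]; exact VanOn.zero
  | h2 a b ha hb => rw [map_add]; exact ha.add hb
  | h1 F x =>
    have : Finite F.1 := F.2
    rw [asm1_cl]
    exact vanOn_finite F.1.subtype x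

variable (hsep : ∀ D : FamSub G FinSub, IsCyclic D.1 → (∀ h : D.1, (orderOf h : k) ≠ 0) →
  ∀ b : CAb D.1, (∀ ν : CAb D.1 →+ L.Lam, ν b = 0) → ∃ m : ℤ, m ≠ 0 ∧ m • b = 0)

include L i hsep in
theorem kernel_torsion (z : ColimK1 k G × H1K0 k G) (M : ℤ) (hM : M ≠ 0)
    (h : M • fullA k G z = 0) : ∃ m : ℤ, m ≠ 0 ∧ m • z = 0 := by
  obtain ⟨a, w⟩ := z
  have e : fullA k G (a, w) = asm1 k G a + asmH k G w := rfl
  have h1 : VanOn L i (fun _ => True) (asmH k G w) := by
    have e1 : asmH k G w = fullA k G (a, w) - asm1 k G a := by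
      rw [e, add_sub_cancel_left]
    rw [e1]
    refine VanOn.sub (VanOn.of_smul hM ?_) (vanOn_asm1 L i a)
    rw [h]
    exact VanOn.zero
  obtain ⟨m, hm, hw⟩ := torsion_of_vanOn L i hsep w h1
  have h2 : (M * m) • asm1 k G a = 0 := by
    have h3 : (M * m) • fullA k G (a, w) = 0 := by
      rw [mul_comm, mul_smul, h, smul_zero]
    rw [e, smul_add, mul_smul M m (asmH k G w), ← map_zsmul (asmH k G), hw, map_zero,
      smul_zero, add_zero] at h3
    exact h3
  obtain ⟨m', hm', ha⟩ := torsion_colim1 (DO.hArt_field k) (DO.hUnit_field k) G a (M * m)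
    (mul_ne_zero hM hm) h2
  refine ⟨m * m', mul_ne_zero hm hm', Prod.ext ?_ ?_⟩
  · change (m * m') • a = 0
    rw [mul_smul, ha, smul_zero]
  · change (m * m') • w = 0
    rw [mul_comm, mul_smul, hw, smul_zero]

end Main

section Zero

theorem sep_zero (k : Type u) [Field k] [CharZero k] {B : Type v} [AddCommGroup B] (b : B)
    (h : ∀ ν : B →+ (bLiftZero k).Lam, ν b = 0) : ∃ m : ℤ, m ≠ 0 ∧ m • b = 0 := by
  by_contra hcon
  push Not at hcon
  obtain ⟨μ, hμ⟩ := exists_hom_rat b hcon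
  apply hμ
  have h1 := h ((algebraMap ℚ k : ℚ →+* k).toAddMonoidHom.comp μ)
  exact (map_eq_zero_iff _ (algebraMap ℚ k).injective).1 h1

/-- Characteristic zero. -/
theorem kernel_torsion_zero (k : Type u) [Field k] [CharZero k] (G : Type v) [Group G]
    (z : ColimK1 k G × H1K0 k G) (M : ℤ) (hM : M ≠ 0) (h : M • fullA k G z = 0) :
    ∃ m : ℤ, m ≠ 0 ∧ m • z = 0 :=
  kernel_torsion (bLiftZero k) (RingHom.id k) (fun _ _ _ b hb => sep_zero k b hb) z M hM h

end Zero

section CharP

variable (p : ℕ) [hp : Fact p.Prime] (k : Type u) [Field k] [CharP k p]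

theorem padic_to_witt (K : Type u) [Field K] [CharP K p] :
    ∃ f : ℤ_[p] →+* WittVector p K, Function.Injective f := by
  refine ⟨(WittVector.map (ZMod.castHom (dvd_refl p) K)).comp (WittVector.fromPadicInt p), ?_⟩
  rw [RingHom.coe_comp]
  refine (WittVector.map_injective _ (RingHom.injective _)).comp ?_
  have h1 : Function.LeftInverse (WittVector.toPadicInt p) (WittVector.fromPadicInt p) :=
    fun x => WittVector.toPadicInt_comp_fromPadicInt_ext p x
  exact h1.injective

theorem kernel_torsion_p (G : Type v) [Group G]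
    (hG : ∀ C : Subgroup G, Finite C → IsCyclic C → ¬ p ∣ Nat.card C →
      ∀ z : Subgroup.centralizer (C : Set G),
        (∀ f : Subgroup.centralizer (C : Set G) →* Multiplicative ℤ_[p], f z = 1) →
        ∃ m : ℕ, m ≠ 0 ∧ z ^ m ∈ commutator (Subgroup.centralizer (C : Set G)))
    (z : ColimK1 k G × H1K0 k G) (M : ℤ) (hM : M ≠ 0) (h : M • fullA k G z = 0) :
    ∃ m : ℤ, m ≠ 0 ∧ m • z = 0 := by
  let K := AlgebraicClosure k
  have : CharP K p := charP_of_injective_algebraMap (algebraMap k K).injective p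
  have : PerfectRing K p := PerfectField.toPerfectRing p
  refine kernel_torsion (bLiftP p K) (algebraMap k K) ?_ z M hM h
  intro D hD ho b hb
  have hfin : Finite D.1 := D.2
  have hcard : ¬ p ∣ Nat.card D.1 := by
    intro hdvd
    obtain ⟨g, hg⟩ := IsCyclic.exists_generator (α := D.1)
    have h1 : orderOf g = Nat.card D.1 := orderOf_eq_card_of_forall_mem_zpowers hg
    apply ho g
    rw [h1]
    exact (CharP.cast_eq_zero_iff k p _).2 hdvd
  obtain ⟨z₀, rfl⟩ : ∃ z₀ : Subgroup.centralizer (D.1 : Set G), cab z₀ = b := by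
    obtain ⟨z₀, hz₀⟩ := QuotientGroup.mk_surjective (Additive.toMul b)
    exact ⟨z₀, congrArg Additive.ofMul hz₀⟩
  obtain ⟨ψ, hψ⟩ := padic_to_witt p K
  obtain ⟨m, hm, h1⟩ := hG D.1 hfin hD hcard z₀ (by
    intro f
    have h2 := hb (ψ.toAddMonoidHom.comp (MonoidHom.toAdditiveLeft (Abelianization.lift f)))
    have h3 : ψ (Multiplicative.toAdd (f z₀)) = 0 := h2
    have h4 : Multiplicative.toAdd (f z₀) = 0 := hψ (by rw [h3, map_zero])
    exact congrArg Multiplicative.ofAdd h4)
  refine ⟨(m : ℤ), by exact_mod_cast hm, ?_⟩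
  have h2 : Abelianization.of (z₀ ^ m) = 1 :=
    (QuotientGroup.eq_one_iff _).2 h1
  rw [map_pow] at h2
  rw [natCast_zsmul]
  exact congrArg Additive.ofMul h2

end CharP

/-- **Rational injectivity of the full assembly map in degree one.** -/
theorem full_injective (k : Type u) [Field k] (G : Type v) [Group G]
    (hG : ∀ (p : ℕ) [Fact p.Prime], CharP k p →
      ∀ C : Subgroup G, Finite C → IsCyclic C → ¬ p ∣ Nat.card C →
      PadicSep p (Subgroup.centralizer (C : Set G))) :
    RatInj (fullAssembly k G) := by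
  apply lTensor_injective
  intro z M hM h
  obtain ⟨p, hp⟩ := CharP.exists k
  rcases CharP.char_is_prime_or_zero k p with h1 | h1
  · have : Fact p.Prime := ⟨h1⟩
    exact kernel_torsion_p p k G (fun C hC hc hd z hz => hG p hp C hC hc hd z hz) z M hM h
  · subst h1
    have : CharZero k := CharP.charP_to_charZero k
    exact kernel_torsion_zero k G z M hM h

end Pool.Agent.H71.DB
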