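import Pool.Agent.H71.DB.Lift
import Pool.Agent.H71.DB.GBass

/-!
# The Dennis trace of the elements of `K₁` coming from `K₀` of a finite group and a central element
-/

set_option autoImplicit false

open Matrix

universe u v w

namespace Pool.Agent.H71.DB

open Pool.Agent.H71.FJ (MatEquiv IdemMat K0 K0.mk K0.lift K0.lift_mk K0.hom_ext K0.map clsFun
  clsFun_single T K0.tr_mk LT liftK)
open Pool.Agent.H95.WH (K1 K1.mk K1.map K1.map_mk)
open Pool.Agent.H71.DO (grpUnit)

section Formula

variable {S : Type u} [CommRing S] {H : Type v} [Group H] {G : Type w} [Group G]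

/-- `L z` is invariant on the image of `f`. -/
theorem Coc.L_comm (l : Coc G S) (f : H →* G) (z : G) (h : ∀ a, f a * z = z * f a) (a b : H) :
    l.L z (f (a * b)) = l.L z (f (b * a)) := by
  have h1 := l.mul (f b) z (f (a * b))
  have h2 := l.mul z (f b) (f (a * b))
  have e1 : f b * f (a * b) * (f b)⁻¹ = f (b * a) := by
    rw [map_mul, map_mul]
    group
  have e2 : z * f (a * b) * z⁻¹ = f (a * b) := by rw [← h, mul_inv_cancel_right]
  rw [e1] at h1
  rw [e2, h, h1] at h2
  rw [add_comm (l.L (f b) _)] at h2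
  exact (add_right_cancel h2).symm

theorem infinite_mul {x z : G} (hx : IsOfFinOrder x) (hz : ¬ IsOfFinOrder z)
    (hc : Commute x z) : orderOf (x * z) = 0 := by
  rw [orderOf_eq_zero_iff]
  intro h
  apply hz
  have h1 : IsOfFinOrder (x⁻¹ * (x * z)) :=
    ((Commute.refl x).inv_left.mul_right hc.inv_left).isOfFinOrder_mul hx.inv h
  rwa [inv_mul_cancel_left] at h1

theorem Coc.phi_bass (l : Coc G S) (hs : ∀ f y, orderOf y = 0 → l.L f y = 0) [Finite H]
    (f : H →* G) (z : G) (h : ∀ a, f a * z = z * f a) (hz : ¬ IsOfFinOrder z)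
    (a b : MonoidAlgebra S H) :
    l.phi (MonoidAlgebra.mapDomainRingHom S f a *
        (((grpUnit S G z)⁻¹ : (MonoidAlgebra S G)ˣ) - 1 : MonoidAlgebra S G))
      (MonoidAlgebra.mapDomainRingHom S f b * ((grpUnit S G z : MonoidAlgebra S G) - 1)) =
      2 * (l.comap f).phi a b + clsFun (fun x => l.L z (f x)) (a * b) := by
  have ginv : (((grpUnit S G z)⁻¹ : (MonoidAlgebra S G)ˣ) : MonoidAlgebra S G) =
      MonoidAlgebra.single z⁻¹ 1 := by
    rw [← map_inv]
    rfl
  rw [ginv, grpUnit_val]
  induction a using MonoidAlgebra.induction_linear with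
  | zero => simp
  | add a a' ha ha' =>
    rw [map_add, add_mul, map_add, AddMonoidHom.add_apply, ha, ha', map_add,
      AddMonoidHom.add_apply, add_mul, map_add]
    ring
  | single g r =>
    induction b using MonoidAlgebra.induction_linear with
    | zero => simp
    | add b b' hb hb' =>
      rw [map_add, add_mul, map_add, hb, hb', map_add, mul_add (MonoidAlgebra.single g r), map_add]
      ring
    | single k s =>
      change l.phi (MonoidAlgebra.mapDomain f (MonoidAlgebra.single g r) *
        (MonoidAlgebra.single z⁻¹ 1 - 1)) (MonoidAlgebra.mapDomain f (MonoidAlgebra.single k s) *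
        (MonoidAlgebra.single z 1 - 1)) = _
      rw [MonoidAlgebra.mapDomain_single, MonoidAlgebra.mapDomain_single, mul_sub, mul_sub,
        mul_one, mul_one, MonoidAlgebra.single_mul_single, MonoidAlgebra.single_mul_single,
        mul_one, mul_one]
      simp only [map_sub, AddMonoidHom.sub_apply]
      rw [l.phi_single, l.phi_single, l.phi_single, l.phi_single, Coc.phi_single,
        MonoidAlgebra.single_mul_single, clsFun_single]
      have hk := h k
      have e1 : f g * z⁻¹ * (f k * z) = f (g * k) := by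
        rw [hk, map_mul]
        group
      have e2 : f g * z⁻¹ * f k = f (g * k) * z⁻¹ := by
        have e3 : z⁻¹ * f k = f k * z⁻¹ := ((show Commute (f k) z from hk).inv_right).symm
        rw [mul_assoc, e3, map_mul, mul_assoc]
      have e3 : f g * (f k * z) = f (g * k) * z := by rw [map_mul, mul_assoc]
      have e4 : f g * f k = f (g * k) := (map_mul _ _ _).symm
      have hfin : IsOfFinOrder (f (g * k)) := f.isOfFinOrder (isOfFinOrder_of_finite (g * k))
      have hc : Commute (f (g * k)) z := h _
      rw [e1, e2, e3, e4, hs _ (f (g * k) * z⁻¹) (infinite_mul hfin (by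
          rw [isOfFinOrder_inv_iff]; exact hz) hc.inv_right),
        hs _ (f (g * k) * z) (infinite_mul hfin hz hc), l.mul z (f k)]
      have e5 : z * f (g * k) * z⁻¹ = f (g * k) := by rw [← h, mul_inv_cancel_right]
      rw [e5]
      change _ = 2 * (s * (r * l.L (f k) (f (g * k)))) + r * s * l.L z (f (g * k))
      ring

/-- The trace of `[1 + e (z - 1)]`. -/
theorem Coc.dt_gbass (l : Coc G S) (hs : ∀ f y, orderOf y = 0 → l.L f y = 0) [Fintype H]
    (f : H →* G) (z : G) (h : ∀ a, f a * z = z * f a) (hz : ¬ IsOfFinOrder z)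
    (x : K0 (MonoidAlgebra S H)) :
    (Fintype.card H : S) * (l.dt (gbass S f z h x) -
      T (fun a => l.L z (f a)) (l.L_comm f z h) x) = 0 := by
  suffices H1 : (AddMonoidHom.mulLeft (Fintype.card H : S)).comp (l.dt.comp (gbass S f z h) -
      T (fun a => l.L z (f a)) (l.L_comm f z h)) = 0 from DFunLike.congr_fun H1 x
  apply K0.hom_ext
  intro a
  change (Fintype.card H : S) * (l.dt (gbass S f z h (K0.mk a)) -
      T (fun a => l.L z (f a)) (l.L_comm f z h) (K0.mk a)) = 0
  rw [gbass, bass_mk, Coc.dt_mk, T, K0.tr_mk, Coc.den]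
  change (Fintype.card H : S) * (l.Phi (bmat _ a.mat _) (bmat _ a.mat _) - _) = 0
  have h1 : l.Phi (bmat (MonoidAlgebra.mapDomainRingHom S f) a.mat
        (((grpUnit S G z)⁻¹ : (MonoidAlgebra S G)ˣ) : MonoidAlgebra S G))
      (bmat (MonoidAlgebra.mapDomainRingHom S f) a.mat (grpUnit S G z : MonoidAlgebra S G)) =
      2 * (l.comap f).Phi a.mat a.mat + clsFun (fun a => l.L z (f a)) (trace a.mat) := by
    have h2 : clsFun (fun a => l.L z (f a)) (trace a.mat) =
        ∑ i, ∑ j, clsFun (fun a => l.L z (f a)) (a.mat i j * a.mat j i) := by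
      conv_lhs => rw [← a.idem]
      simp only [Matrix.trace, Matrix.diag, Matrix.mul_apply, map_sum]
    rw [bmat, bmat, Coc.Phi_add_left, Coc.Phi_one_left, zero_add, Coc.Phi_add_right,
      Coc.Phi_one_right, zero_add, h2, Coc.Phi, Coc.Phi, Finset.mul_sum,
      ← Finset.sum_add_distrib]
    refine Finset.sum_congr rfl fun i _ => ?_
    rw [Finset.mul_sum, ← Finset.sum_add_distrib]
    refine Finset.sum_congr rfl fun j _ => ?_
    rw [Matrix.map_apply, Matrix.map_apply]
    exact l.phi_bass hs f z h hz _ _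
  rw [h1, add_sub_cancel_right]
  have h3 := (l.comap f).card_Phi a.mat a.mat
  rw [sub_self] at h3
  rw [mul_left_comm, h3, mul_zero]

end Formula

end Pool.Agent.H71.DB
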