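import Pool.Agent.H71.DB.Form

/-!
# The cocycle of an element of finite order and a homomorphism on its centralizer
-/

set_option autoImplicit false

open Matrix
open scoped Classical

universe t u v w

namespace Pool.Agent.H71.DB

open Pool.Agent.H71.FJ (IdemMat K0 K0.mk K0.map K0.map_map LT liftK map_liftK T T_zero T_congr)
open Pool.Agent.H95.WH (K1 K1.mk K1.map K1.map_mk K1.map_map)
open Pool.Agent.H71.DO (grpUnit)

section CocC

variable {G : Type v} [Group G] (c : G)

/-- an element conjugating `c` into `y` -/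
noncomputable def xc (y : G) : G := if h : IsConj c y then (isConj_iff.1 h).choose else 1

theorem xc_spec {y : G} (h : IsConj c y) : xc c y * c * (xc c y)⁻¹ = y := by
  rw [xc, dif_pos h]
  exact (isConj_iff.1 h).choose_spec

variable {Λ : Type u} [CommRing Λ] (lam : Subgroup.centralizer ({c} : Set G) →* Multiplicative Λ)

/-- the homomorphism `lam` as a function on `G` -/
noncomputable def lf (g : G) : Λ :=
  if h : g ∈ Subgroup.centralizer ({c} : Set G) then Multiplicative.toAdd (lam ⟨g, h⟩) else 0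

theorem lf_mul {g g' : G} (h : g ∈ Subgroup.centralizer ({c} : Set G))
    (h' : g' ∈ Subgroup.centralizer ({c} : Set G)) :
    lf c lam (g * g') = lf c lam g + lf c lam g' := by
  rw [lf, lf, lf, dif_pos h, dif_pos h', dif_pos (Subgroup.mul_mem _ h h'), ← toAdd_mul,
    ← map_mul]
  rfl

theorem lf_one : lf c lam 1 = 0 := by
  have h := lf_mul c lam (Subgroup.one_mem _) (Subgroup.one_mem _)
  rw [one_mul] at h
  exact left_eq_add.1 h

theorem lf_pow {g : G} (h : g ∈ Subgroup.centralizer ({c} : Set G)) (n : ℕ) :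
    lf c lam (g ^ n) = (n : Λ) * lf c lam g := by
  induction n with
  | zero => rw [pow_zero, lf_one, Nat.cast_zero, zero_mul]
  | succ n ih =>
    rw [pow_succ, lf_mul c lam (Subgroup.pow_mem _ h n) h, ih]
    push_cast
    ring

theorem lf_inv {g : G} (h : g ∈ Subgroup.centralizer ({c} : Set G)) :
    lf c lam g⁻¹ = -lf c lam g := by
  have h1 := lf_mul c lam h (Subgroup.inv_mem _ h)
  rw [mul_inv_cancel, lf_one] at h1
  exact eq_neg_of_add_eq_zero_right h1.symm

theorem lf_conj {g w : G} (h : g ∈ Subgroup.centralizer ({c} : Set G))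
    (hw : w ∈ Subgroup.centralizer ({c} : Set G)) :
    lf c lam (w * g * w⁻¹) = lf c lam g := by
  rw [lf_mul c lam (Subgroup.mul_mem _ hw h) (Subgroup.inv_mem _ hw), lf_mul c lam hw h,
    lf_inv c lam hw]
  ring

theorem mem_cent_iff {g : G} :
    g ∈ Subgroup.centralizer ({c} : Set G) ↔ g * c * g⁻¹ = c := by
  rw [Subgroup.mem_centralizer_singleton_iff, mul_inv_eq_iff_eq_mul]

theorem xc_mem {f y : G} (h : IsConj c y) :
    (xc c (f * y * f⁻¹))⁻¹ * f * xc c y ∈ Subgroup.centralizer ({c} : Set G) := by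
  rw [mem_cent_iff]
  have h1 := xc_spec c h
  have h2 := xc_spec c (h.trans (isConj_iff.2 ⟨f, rfl⟩) : IsConj c (f * y * f⁻¹))
  calc (xc c (f * y * f⁻¹))⁻¹ * f * xc c y * c * ((xc c (f * y * f⁻¹))⁻¹ * f * xc c y)⁻¹
      = (xc c (f * y * f⁻¹))⁻¹ * (f * (xc c y * c * (xc c y)⁻¹) * f⁻¹) * xc c (f * y * f⁻¹) := by
        group
    _ = (xc c (f * y * f⁻¹))⁻¹ * (xc c (f * y * f⁻¹) * c * (xc c (f * y * f⁻¹))⁻¹) *
          xc c (f * y * f⁻¹) := by rw [h1, h2]
    _ = c := by group

variable (tf : ∀ (m : ℤ) (x : Λ), m ≠ 0 → (m : Λ) * x = 0 → x = 0) (hc : IsOfFinOrder c)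

/-- The cocycle of `c` and `lam`. -/
noncomputable def cocC : Coc G Λ where
  L f y := if IsConj c y then lf c lam ((xc c (f * y * f⁻¹))⁻¹ * f * xc c y) else 0
  mul f f' y := by
    have hfy : IsConj y (f * y * f⁻¹) := isConj_iff.2 ⟨f, rfl⟩
    by_cases h : IsConj c y
    · rw [if_pos h, if_pos h, if_pos (h.trans hfy)]
      have h1 := xc_mem c (f := f) h
      have h2 := xc_mem c (f := f') (h.trans hfy)
      rw [← lf_mul c lam h2 h1]
      congr 1
      have e : f' * f * y * (f' * f)⁻¹ = f' * (f * y * f⁻¹) * f'⁻¹ := by group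
      rw [e]
      group
    · rw [if_neg h, if_neg h, if_neg (fun h' => h (h'.trans hfy.symm)), add_zero]
  self y := by
    by_cases h : IsConj c y
    · rw [if_pos h]
      have e1 : y * y * y⁻¹ = y := mul_inv_cancel_right y y
      rw [e1]
      have e2 : (xc c y)⁻¹ * y * xc c y = c := by
        conv_lhs => rw [← xc_spec c h]
        rw [xc_spec c h]
        nth_rewrite 2 [← xc_spec c h]
        group
      rw [e2]
      have hcc : c ∈ Subgroup.centralizer ({c} : Set G) := by
        rw [mem_cent_iff]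
        group
      have h3 := lf_pow c lam hcc (orderOf c)
      rw [pow_orderOf_eq_one, lf_one] at h3
      refine tf (orderOf c : ℕ) _ (by exact_mod_cast hc.orderOf_pos.ne') ?_
      rw [Int.cast_natCast]
      exact h3.symm
    · rw [if_neg h]

theorem cocC_supp (f y : G) (h : orderOf y = 0) : (cocC c lam tf hc).L f y = 0 := by
  change (if IsConj c y then _ else 0) = _
  rw [if_neg]
  intro h1
  obtain ⟨g, hg⟩ := isConj_iff.1 h1
  rw [orderOf_eq_zero_iff] at h
  apply h
  rw [← hg]
  exact (MulAut.conj g).toMonoidHom.isOfFinOrder hc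

theorem cocC_eval {g y z : G} (hg : g * y * g⁻¹ = c) (hz : y * z = z * y) :
    (cocC c lam tf hc).L z y = lf c lam (g * z * g⁻¹) := by
  have hconj : IsConj c y := (isConj_iff.2 ⟨g, hg⟩ : IsConj y c).symm
  change (if IsConj c y then _ else 0) = _
  rw [if_pos hconj]
  have e1 : z * y * z⁻¹ = y := by rw [← hz, mul_inv_cancel_right]
  have h1 := xc_mem c (f := z) hconj
  rw [e1] at h1 ⊢
  have h2 : g * xc c y ∈ Subgroup.centralizer ({c} : Set G) := by
    rw [mem_cent_iff]
    calc g * xc c y * c * (g * xc c y)⁻¹ = g * (xc c y * c * (xc c y)⁻¹) * g⁻¹ := by group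
      _ = c := by rw [xc_spec c hconj, hg]
  rw [← lf_conj c lam h1 h2]
  congr 1
  group

theorem cocC_not_conj {y z : G} (h : ¬ IsConj c y) : (cocC c lam tf hc).L z y = 0 :=
  if_neg h

end CocC

section DnG

variable {k : Type u} [Field k] {K : Type t} [Field K] (L : BLift K) (i : k →+* K)
  {G : Type v} [Group G] {H : Type w} [Group H]

theorem Coc.L_pow {S : Type u} [CommRing S] (l : Coc G S) {y z : G} (h : y * z = z * y) (n : ℕ) :
    l.L (z ^ n) y = (n : S) * l.L z y := by
  induction n with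
  | zero => rw [pow_zero, l.one, Nat.cast_zero, zero_mul]
  | succ n ih =>
    have e : z * y * z⁻¹ = y := by rw [← h, mul_inv_cancel_right]
    rw [pow_succ, l.mul, e, ih]
    push_cast
    ring

theorem T_eq_zero {S : Type u} [CommRing S] (f : H → S) (hf : ∀ x y, f (x * y) = f (y * x))
    (h : ∀ a, f a = 0) (x : K0 (MonoidAlgebra S H)) : T f hf x = 0 := by
  rw [T_congr hf (g := fun _ => (0 : S)) (fun _ _ => rfl) h]
  exact T_zero x _

/-- The value of the lifted Dennis trace on the elements from `K₀`, up to a multiple which does not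
depend on `n` and the cocycle. -/
theorem dn_gbass [Fintype H] (f : H →* G) (z : G) (h : ∀ a, f a * z = z * f a) :
    ∃ M : ℤ, M ≠ 0 ∧ ∀ (l : Coc G L.Lam), (∀ f y, orderOf y = 0 → l.L f y = 0) →
      ∀ (n : ℕ) (x : K0 (MonoidAlgebra k H)),
      (M : L.sys.B n) * (l.dn L n (K1.map (MonoidAlgebra.mapRingHom G i) (gbass k f z h x)) -
        LT L.sys n i (fun a => L.th n (l.L z (f a)))
          ((l.mapS (L.th n)).L_comm f z h) x) = 0 := by
  have key : ∀ (l : Coc G L.Lam) (n : ℕ) (x : K0 (MonoidAlgebra k H)),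
      l.dn L n (K1.map (MonoidAlgebra.mapRingHom G i) (gbass k f z h x)) =
        (l.mapS (L.th n)).dt (gbass (L.sys.B n) f z h (liftK L.sys n i H x)) := by
    intro l n x
    rw [map_gbass, ← map_liftK L.sys n i H x, ← map_gbass, l.dn_map L n]
  by_cases hz : IsOfFinOrder z
  · refine ⟨(orderOf z : ℕ), by exact_mod_cast hz.orderOf_pos.ne', fun l hl n x => ?_⟩
    rw [key, mul_sub, Int.cast_natCast]
    have h1 : ((orderOf z : ℕ) : L.sys.B n) *
        (l.mapS (L.th n)).dt (gbass (L.sys.B n) f z h (liftK L.sys n i H x)) = 0 := by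
      rw [← nsmul_eq_mul, ← map_nsmul, ← gbass_pow,
        gbass_congr _ f (pow_orderOf_eq_one z) _ (fun a => by rw [one_mul, mul_one]), gbass_one,
        map_zero]
    have h2 : ∀ a, L.th n (l.L z (f a)) = 0 := by
      intro a
      have h3 := l.L_pow (h a) (orderOf z)
      rw [pow_orderOf_eq_one, l.one] at h3
      have h4 : l.L z (f a) = 0 := by
        refine L.tf (orderOf z : ℕ) _ (by exact_mod_cast hz.orderOf_pos.ne') ?_
        rw [Int.cast_natCast]
        exact h3.symm
      rw [h4, map_zero]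
    have h5 : LT L.sys n i (fun a => L.th n (l.L z (f a)))
        ((l.mapS (L.th n)).L_comm f z h) x = 0 :=
      T_eq_zero _ ((l.mapS (L.th n)).L_comm f z h) h2 _
    rw [h1, h5, mul_zero, sub_zero]
  · refine ⟨(Fintype.card H : ℕ), by exact_mod_cast Fintype.card_ne_zero, fun l hl n x => ?_⟩
    rw [key, Int.cast_natCast]
    exact (l.mapS (L.th n)).dt_gbass (fun f y hy => by
      change L.th n (l.L f y) = 0
      rw [hl f y hy, map_zero]) f z h hz _

/-- The lifted Dennis trace kills the image of `K₁` of a finite group, up to its order. -/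
theorem dn_finite [Fintype H] (f : H →* G) (l : Coc G L.Lam) (n : ℕ)
    (x : K1 (MonoidAlgebra k H)) :
    ((Fintype.card H : ℤ) : L.sys.B n) * l.dn L n (K1.map (MonoidAlgebra.mapRingHom G i)
      (K1.map (MonoidAlgebra.mapDomainRingHom k f) x)) = 0 := by
  obtain ⟨m, U, rfl⟩ := Pool.Agent.H95.WH.K1.exists_mk x
  obtain ⟨V, hV⟩ := exists_lift_GL L n
    (Pool.Agent.H95.WH.K1.mapU (MonoidAlgebra.mapRingHom H i) U)
  have h1 : K1.map (MonoidAlgebra.mapRingHom H i) (K1.mk U) =
      K1.map (MonoidAlgebra.mapRingHom H (L.sys.π n)) (K1.mk V) := by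
    rw [K1.map_mk, K1.map_mk]
    congr 1
    exact Units.ext hV.symm
  have h2 : K1.map (MonoidAlgebra.mapRingHom G i)
      (K1.map (MonoidAlgebra.mapDomainRingHom k f) (K1.mk U)) =
      K1.map (MonoidAlgebra.mapRingHom G (L.sys.π n))
        (K1.map (MonoidAlgebra.mapDomainRingHom (L.sys.B n) f) (K1.mk V)) := by
    rw [K1.map_map, K1.map_map, MonoidAlgebra.mapRingHom_comp_mapDomainRingHom,
      MonoidAlgebra.mapRingHom_comp_mapDomainRingHom, ← K1.map_map, ← K1.map_map, h1]
  rw [h2, l.dn_map L n, K1.map_mk, Coc.dt_mk]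
  have h3 : (l.mapS (L.th n)).den
      (Pool.Agent.H95.WH.K1.mapU (MonoidAlgebra.mapDomainRingHom (L.sys.B n) f) V) =
      ((l.mapS (L.th n)).comap f).den V := (l.mapS (L.th n)).Phi_comap f V.inv V.val
  rw [h3, Int.cast_natCast]
  exact Coc.card_den _ V

end DnG

end Pool.Agent.H71.DB
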