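import Pool.Agent.H71.FJ.Main
import Pool.Agent.H95.WH.K1B

/-!
# Conjugation cocycles and the Dennis trace

A cocycle is a function `L : G → G → S` with `L (f' f) y = L f' (f y f⁻¹) + L f y` and `L y y = 0`.
It defines the bilinear form `φ(∑ a_g g, ∑ b_h h) = ∑ a_g b_h L h (g h)` on `S[G]`, which satisfies
`φ(a b, c) + φ(c a, b) = φ(a, b c)`, and the homomorphism `U ↦ φ(U⁻¹, U)` on `K₁(S[G])`.
-/

set_option autoImplicit false

open Matrix

universe u v w

namespace Pool.Agent.H71.DB

open Pool.Agent.H71.FJ (clsFun clsFun_single clsFun_add clsFun_comm)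
open Pool.Agent.H95.WH (K1 K1.mk K1.unit K1.map K1.lift K1.lift_mk K1.map_mk stab stabMat)

/-- Conjugation cocycles. -/
structure Coc (G : Type v) [Group G] (S : Type u) [CommRing S] where
  /-- the function -/
  L : G → G → S
  mul : ∀ f f' y, L (f' * f) y = L f' (f * y * f⁻¹) + L f y
  self : ∀ y, L y y = 0

section

variable {G : Type v} [Group G] {S : Type u} [CommRing S]

theorem Coc.one (l : Coc G S) (y : G) : l.L 1 y = 0 := by
  have h := l.mul 1 1 y
  rw [one_mul, one_mul, inv_one, mul_one] at h
  exact left_eq_add.1 h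

/-- bilinear forms on a group ring -/
noncomputable def pairF (f : G → G → S) (a b : MonoidAlgebra S G) : S :=
  clsFun (fun h => clsFun (fun g => f g h) a) b

theorem pairF_single (f : G → G → S) (g h : G) (r s : S) :
    pairF f (MonoidAlgebra.single g r) (MonoidAlgebra.single h s) = s * (r * f g h) := by
  rw [pairF, clsFun_single, clsFun_single]

theorem pairF_add_right (f : G → G → S) (a b b' : MonoidAlgebra S G) :
    pairF f a (b + b') = pairF f a b + pairF f a b' := by
  rw [pairF, map_add]
  rfl

theorem pairF_add_left (f : G → G → S) (a a' b : MonoidAlgebra S G) :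
    pairF f (a + a') b = pairF f a b + pairF f a' b := by
  rw [pairF, pairF, pairF, ← clsFun_add]
  simp only [map_add]

theorem pairF_zero_right (f : G → G → S) (a : MonoidAlgebra S G) : pairF f a 0 = 0 := by
  rw [pairF, map_zero]

theorem pairF_zero_left (f : G → G → S) (b : MonoidAlgebra S G) : pairF f 0 b = 0 := by
  have h := pairF_add_left f 0 0 b
  rw [add_zero] at h
  exact left_eq_add.1 h

/-- The bilinear form as a biadditive map. -/
noncomputable def pairH (f : G → G → S) : MonoidAlgebra S G →+ MonoidAlgebra S G →+ S where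
  toFun a :=
    { toFun := fun b => pairF f a b
      map_zero' := pairF_zero_right f a
      map_add' := pairF_add_right f a }
  map_zero' := by
    ext1
    apply AddMonoidHom.ext
    intro b
    exact pairF_zero_left f _
  map_add' a a' := by
    apply AddMonoidHom.ext
    intro b
    exact pairF_add_left f a a' b

/-- The bilinear form of a cocycle. -/
noncomputable def Coc.phi (l : Coc G S) : MonoidAlgebra S G →+ MonoidAlgebra S G →+ S :=
  pairH fun g h => l.L h (g * h)

theorem Coc.phi_single (l : Coc G S) (g h : G) (r s : S) :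
    l.phi (MonoidAlgebra.single g r) (MonoidAlgebra.single h s) = s * (r * l.L h (g * h)) :=
  pairF_single _ g h r s

theorem Coc.phi_cocycle (l : Coc G S) (a b c : MonoidAlgebra S G) :
    l.phi (a * b) c + l.phi (c * a) b = l.phi a (b * c) := by
  induction a using MonoidAlgebra.induction_linear with
  | zero => simp
  | add a a' ha ha' =>
    rw [add_mul, mul_add, map_add, map_add, map_add, AddMonoidHom.add_apply,
      AddMonoidHom.add_apply, AddMonoidHom.add_apply, ← ha, ← ha']
    ring
  | single g r =>
    induction b using MonoidAlgebra.induction_linear with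
    | zero => simp
    | add b b' hb hb' =>
      rw [add_mul, mul_add, map_add, map_add, map_add, AddMonoidHom.add_apply, ← hb, ← hb']
      ring
    | single h s =>
      induction c using MonoidAlgebra.induction_linear with
      | zero => simp
      | add c c' hc hc' =>
        rw [add_mul, mul_add, map_add, map_add, map_add, AddMonoidHom.add_apply, ← hc, ← hc']
        ring
      | single k t =>
        rw [MonoidAlgebra.single_mul_single, MonoidAlgebra.single_mul_single,
          MonoidAlgebra.single_mul_single, l.phi_single, l.phi_single, l.phi_single, l.mul k h]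
        have e1 : k * (g * (h * k)) * k⁻¹ = k * g * h := by group
        rw [e1, ← mul_assoc g h k]
        ring

theorem Coc.phi_one_right (l : Coc G S) (a : MonoidAlgebra S G) : l.phi a 1 = 0 := by
  induction a using MonoidAlgebra.induction_linear with
  | zero => simp
  | add a a' ha ha' => rw [map_add, AddMonoidHom.add_apply, ha, ha', add_zero]
  | single g r => rw [MonoidAlgebra.one_def, l.phi_single, l.one, mul_zero, mul_zero]

theorem Coc.phi_one_left (l : Coc G S) (b : MonoidAlgebra S G) : l.phi 1 b = 0 := by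
  induction b using MonoidAlgebra.induction_linear with
  | zero => simp
  | add a a' ha ha' => rw [map_add, ha, ha', add_zero]
  | single g r => rw [MonoidAlgebra.one_def, l.phi_single, one_mul, one_mul, l.self, mul_zero]

variable {ι κ μ : Type*} [Fintype ι] [Fintype κ] [Fintype μ]

/-- The form on matrices. -/
noncomputable def Coc.Phi (l : Coc G S) (A : Matrix ι κ (MonoidAlgebra S G))
    (B : Matrix κ ι (MonoidAlgebra S G)) : S := ∑ i, ∑ j, l.phi (A i j) (B j i)

theorem Coc.Phi_add_left (l : Coc G S) (A A' : Matrix ι κ (MonoidAlgebra S G))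
    (B : Matrix κ ι (MonoidAlgebra S G)) : l.Phi (A + A') B = l.Phi A B + l.Phi A' B := by
  simp only [Coc.Phi, Matrix.add_apply, map_add, AddMonoidHom.add_apply, Finset.sum_add_distrib]

theorem Coc.Phi_add_right (l : Coc G S) (A : Matrix ι κ (MonoidAlgebra S G))
    (B B' : Matrix κ ι (MonoidAlgebra S G)) : l.Phi A (B + B') = l.Phi A B + l.Phi A B' := by
  simp only [Coc.Phi, Matrix.add_apply, map_add, Finset.sum_add_distrib]

theorem Coc.Phi_zero_left (l : Coc G S) (B : Matrix κ ι (MonoidAlgebra S G)) :
    l.Phi (0 : Matrix ι κ (MonoidAlgebra S G)) B = 0 := by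
  simp [Coc.Phi]

theorem Coc.Phi_zero_right (l : Coc G S) (A : Matrix ι κ (MonoidAlgebra S G)) :
    l.Phi A (0 : Matrix κ ι (MonoidAlgebra S G)) = 0 := by
  simp [Coc.Phi]

theorem Coc.Phi_neg_left (l : Coc G S) (A : Matrix ι κ (MonoidAlgebra S G))
    (B : Matrix κ ι (MonoidAlgebra S G)) : l.Phi (-A) B = -l.Phi A B := by
  simp [Coc.Phi]

theorem Coc.Phi_neg_right (l : Coc G S) (A : Matrix ι κ (MonoidAlgebra S G))
    (B : Matrix κ ι (MonoidAlgebra S G)) : l.Phi A (-B) = -l.Phi A B := by
  simp [Coc.Phi]

theorem Coc.Phi_cocycle (l : Coc G S) (A : Matrix ι κ (MonoidAlgebra S G))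
    (B : Matrix κ μ (MonoidAlgebra S G)) (C : Matrix μ ι (MonoidAlgebra S G)) :
    l.Phi (A * B) C + l.Phi (C * A) B = l.Phi A (B * C) := by
  have h1 : l.Phi (A * B) C = ∑ i, ∑ k, ∑ m, l.phi (A i k * B k m) (C m i) := by
    rw [Coc.Phi]
    refine Finset.sum_congr rfl fun i _ => ?_
    rw [Finset.sum_comm]
    refine Finset.sum_congr rfl fun m _ => ?_
    rw [Matrix.mul_apply, map_sum, AddMonoidHom.finsetSum_apply]
  have h2 : l.Phi (C * A) B = ∑ i, ∑ k, ∑ m, l.phi (C m i * A i k) (B k m) := by
    rw [Coc.Phi]
    have e : ∀ m, ∑ k, l.phi ((C * A) m k) (B k m) =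
        ∑ i, ∑ k, l.phi (C m i * A i k) (B k m) := by
      intro m
      rw [Finset.sum_comm]
      refine Finset.sum_congr rfl fun k _ => ?_
      rw [Matrix.mul_apply, map_sum, AddMonoidHom.finsetSum_apply]
    rw [Finset.sum_congr rfl fun m _ => e m, Finset.sum_comm]
    refine Finset.sum_congr rfl fun i _ => ?_
    rw [Finset.sum_comm]
  have h3 : l.Phi A (B * C) = ∑ i, ∑ k, ∑ m, l.phi (A i k) (B k m * C m i) := by
    rw [Coc.Phi]
    refine Finset.sum_congr rfl fun i _ => Finset.sum_congr rfl fun k _ => ?_
    rw [Matrix.mul_apply, map_sum]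
  rw [h1, h2, h3, ← Finset.sum_add_distrib]
  refine Finset.sum_congr rfl fun i _ => ?_
  rw [← Finset.sum_add_distrib]
  refine Finset.sum_congr rfl fun k _ => ?_
  rw [← Finset.sum_add_distrib]
  exact Finset.sum_congr rfl fun m _ => l.phi_cocycle _ _ _

variable [DecidableEq ι]

theorem Coc.Phi_one_left (l : Coc G S) (B : Matrix ι ι (MonoidAlgebra S G)) :
    l.Phi 1 B = 0 := by
  rw [Coc.Phi]
  refine Finset.sum_eq_zero fun i _ => Finset.sum_eq_zero fun j _ => ?_
  by_cases h : i = j
  · rw [h, Matrix.one_apply_eq, l.phi_one_left]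
  · rw [Matrix.one_apply_ne h, map_zero, AddMonoidHom.zero_apply]

theorem Coc.Phi_one_right (l : Coc G S) (B : Matrix ι ι (MonoidAlgebra S G)) :
    l.Phi B 1 = 0 := by
  rw [Coc.Phi]
  refine Finset.sum_eq_zero fun i _ => Finset.sum_eq_zero fun j _ => ?_
  by_cases h : j = i
  · rw [h, Matrix.one_apply_eq, l.phi_one_right]
  · rw [Matrix.one_apply_ne h, map_zero]

/-- The trace of an invertible matrix. -/
noncomputable def Coc.den (l : Coc G S) (U : (Matrix ι ι (MonoidAlgebra S G))ˣ) : S :=
  l.Phi U.inv U.val

theorem Coc.den_mul (l : Coc G S) (U V : (Matrix ι ι (MonoidAlgebra S G))ˣ) :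
    l.den (U * V) = l.den U + l.den V := by
  have h := l.Phi_cocycle (V.inv * U.inv) U.val V.val
  have e1 : V.inv * U.inv * U.val = V.inv := by rw [Matrix.mul_assoc, U.inv_val, Matrix.mul_one]
  have e2 : V.val * (V.inv * U.inv) = U.inv := by
    rw [← Matrix.mul_assoc, V.val_inv, Matrix.one_mul]
  rw [e1, e2] at h
  change l.Phi (V.inv * U.inv) (U.val * V.val) = _
  rw [← h, add_comm]
  rfl

theorem Coc.den_one (l : Coc G S) : l.den (1 : (Matrix ι ι (MonoidAlgebra S G))ˣ) = 0 :=
  l.Phi_one_left _

theorem Coc.den_stab (l : Coc G S) {n : ℕ} (U : (Matrix (Fin n) (Fin n) (MonoidAlgebra S G))ˣ) :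
    l.den (stab U) = l.den U := by
  have key : ∀ A B : Matrix (Fin n) (Fin n) (MonoidAlgebra S G),
      l.Phi (stabMat A) (stabMat B) = l.Phi A B := by
    intro A B
    have h1 : l.Phi (stabMat A) (stabMat B) = l.Phi
        (Matrix.fromBlocks A 0 0 (1 : Matrix (Fin 1) (Fin 1) (MonoidAlgebra S G)))
        (Matrix.fromBlocks B 0 0 (1 : Matrix (Fin 1) (Fin 1) (MonoidAlgebra S G))) := by
      rw [Coc.Phi, Coc.Phi, ← finSumFinEquiv.sum_comp]
      refine Finset.sum_congr rfl fun i _ => ?_
      rw [← finSumFinEquiv.sum_comp]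
      refine Finset.sum_congr rfl fun j _ => ?_
      simp [stabMat, Matrix.reindex_apply]
    rw [h1, Coc.Phi, Coc.Phi, Fintype.sum_sum_type]
    simp only [Fintype.sum_sum_type, Matrix.fromBlocks_apply₁₁, Matrix.fromBlocks_apply₁₂,
      Matrix.fromBlocks_apply₂₁, Matrix.fromBlocks_apply₂₂, Matrix.zero_apply, map_zero,
      AddMonoidHom.zero_apply, Finset.sum_const_zero, add_zero, zero_add]
    have h2 : ∑ i : Fin 1, ∑ j : Fin 1, l.phi ((1 : Matrix (Fin 1) (Fin 1) (MonoidAlgebra S G)) i j)
        ((1 : Matrix (Fin 1) (Fin 1) (MonoidAlgebra S G)) j i) = 0 := by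
      have := l.Phi_one_left (1 : Matrix (Fin 1) (Fin 1) (MonoidAlgebra S G))
      exact this
    rw [h2, add_zero]
  exact key _ _

/-- The Dennis trace homomorphism on `K₁(S[G])`. -/
noncomputable def Coc.dt (l : Coc G S) : K1 (MonoidAlgebra S G) →+ S :=
  K1.lift (fun _ U => l.den U) (fun _ U V => l.den_mul U V) (fun _ U => l.den_stab U)

theorem Coc.dt_mk (l : Coc G S) {n : ℕ} (U : (Matrix (Fin n) (Fin n) (MonoidAlgebra S G))ˣ) :
    l.dt (K1.mk U) = l.den U := K1.lift_mk _ _ _ U

end

section Nat

variable {G : Type v} [Group G] {H : Type w} [Group H] {S : Type u} [CommRing S]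

/-- Restriction of a cocycle along a homomorphism. -/
def Coc.comap (l : Coc G S) (f : H →* G) : Coc H S where
  L a y := l.L (f a) (f y)
  mul a a' y := by
    rw [map_mul, l.mul]
    simp only [map_mul, map_inv]
  self y := l.self _

/-- Change of coefficients. -/
def Coc.mapS {T : Type*} [CommRing T] (l : Coc G S) (θ : S →+* T) : Coc G T where
  L a y := θ (l.L a y)
  mul a a' y := by rw [l.mul, map_add]
  self y := by rw [l.self, map_zero]

theorem Coc.phi_comap (l : Coc G S) (f : H →* G) (a b : MonoidAlgebra S H) :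
    l.phi (MonoidAlgebra.mapDomainRingHom S f a) (MonoidAlgebra.mapDomainRingHom S f b) =
      (l.comap f).phi a b := by
  induction a using MonoidAlgebra.induction_linear with
  | zero => simp
  | add a a' ha ha' =>
    rw [map_add, map_add, map_add, AddMonoidHom.add_apply, AddMonoidHom.add_apply, ha, ha']
  | single g r =>
    induction b using MonoidAlgebra.induction_linear with
    | zero => simp
    | add b b' hb hb' => rw [map_add, map_add, map_add, hb, hb']
    | single h s =>
      change l.phi (MonoidAlgebra.mapDomain f (MonoidAlgebra.single g r))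
        (MonoidAlgebra.mapDomain f (MonoidAlgebra.single h s)) = _
      rw [MonoidAlgebra.mapDomain_single, MonoidAlgebra.mapDomain_single, l.phi_single,
        Coc.phi_single]
      change _ = s * (r * l.L (f h) (f (g * h)))
      rw [map_mul]

theorem Coc.phi_mapS {T : Type*} [CommRing T] (l : Coc G S) (θ : S →+* T)
    (a b : MonoidAlgebra S G) :
    (l.mapS θ).phi (MonoidAlgebra.mapRingHom G θ a) (MonoidAlgebra.mapRingHom G θ b) =
      θ (l.phi a b) := by
  induction a using MonoidAlgebra.induction_linear with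
  | zero => simp
  | add a a' ha ha' =>
    rw [map_add, map_add, map_add, AddMonoidHom.add_apply, AddMonoidHom.add_apply, ha, ha',
      map_add]
  | single g r =>
    induction b using MonoidAlgebra.induction_linear with
    | zero => simp
    | add b b' hb hb' => rw [map_add, map_add, map_add, map_add, hb, hb']
    | single h s =>
      rw [MonoidAlgebra.mapRingHom_single, MonoidAlgebra.mapRingHom_single, l.phi_single,
        Coc.phi_single, map_mul, map_mul]
      rfl

variable {ι κ : Type*} [Fintype ι] [Fintype κ]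

theorem Coc.Phi_comap (l : Coc G S) (f : H →* G) (A : Matrix ι κ (MonoidAlgebra S H))
    (B : Matrix κ ι (MonoidAlgebra S H)) :
    l.Phi (A.map (MonoidAlgebra.mapDomainRingHom S f))
      (B.map (MonoidAlgebra.mapDomainRingHom S f)) = (l.comap f).Phi A B := by
  simp only [Coc.Phi, Matrix.map_apply, l.phi_comap]

theorem Coc.Phi_mapS {T : Type*} [CommRing T] (l : Coc G S) (θ : S →+* T)
    (A : Matrix ι κ (MonoidAlgebra S G)) (B : Matrix κ ι (MonoidAlgebra S G)) :
    (l.mapS θ).Phi (A.map (MonoidAlgebra.mapRingHom G θ)) (B.map (MonoidAlgebra.mapRingHom G θ)) =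
      θ (l.Phi A B) := by
  simp only [Coc.Phi, Matrix.map_apply, l.phi_mapS, map_sum]

/-- the function `∑_f L f y` -/
noncomputable def Coc.psi [Fintype H] (l : Coc H S) (y : H) : S := ∑ f : H, l.L f y

theorem Coc.psi_mul [Fintype H] (l : Coc H S) (g h : H) :
    l.psi (g * h) = l.psi (h * g) + (Fintype.card H : S) * l.L h (g * h) := by
  have e : ∀ f : H, l.L (f * h) (g * h) = l.L f (h * g) + l.L h (g * h) := by
    intro f
    rw [l.mul]
    congr 2
    group
  calc l.psi (g * h) = ∑ f : H, l.L (f * h) (g * h) :=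
        (Equiv.sum_comp (Equiv.mulRight h) (fun f => l.L f (g * h))).symm
    _ = ∑ f : H, (l.L f (h * g) + l.L h (g * h)) := Finset.sum_congr rfl fun f _ => e f
    _ = _ := by
      rw [Finset.sum_add_distrib, Finset.sum_const, Finset.card_univ, nsmul_eq_mul]
      rfl

theorem Coc.card_phi [Fintype H] (l : Coc H S) (a b : MonoidAlgebra S H) :
    (Fintype.card H : S) * l.phi a b = clsFun l.psi (a * b) - clsFun l.psi (b * a) := by
  induction a using MonoidAlgebra.induction_linear with
  | zero => simp
  | add a a' ha ha' =>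
    rw [map_add, AddMonoidHom.add_apply, mul_add, ha, ha', add_mul, mul_add, map_add, map_add]
    ring
  | single g r =>
    induction b using MonoidAlgebra.induction_linear with
    | zero => simp
    | add b b' hb hb' =>
      rw [map_add, mul_add, hb, hb', add_mul, mul_add, map_add, map_add]
      ring
    | single h s =>
      rw [l.phi_single, MonoidAlgebra.single_mul_single, MonoidAlgebra.single_mul_single,
        clsFun_single, clsFun_single, l.psi_mul g h]
      ring

theorem Coc.card_Phi [Fintype H] (l : Coc H S) (A : Matrix ι κ (MonoidAlgebra S H))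
    (B : Matrix κ ι (MonoidAlgebra S H)) :
    (Fintype.card H : S) * l.Phi A B =
      clsFun l.psi (trace (A * B)) - clsFun l.psi (trace (B * A)) := by
  simp only [Coc.Phi, Matrix.trace, Matrix.diag, Matrix.mul_apply, Finset.mul_sum, l.card_phi,
    map_sum, Finset.sum_sub_distrib]
  congr 1
  rw [Finset.sum_comm]

theorem Coc.card_den [Fintype H] [DecidableEq ι] (l : Coc H S)
    (U : (Matrix ι ι (MonoidAlgebra S H))ˣ) : (Fintype.card H : S) * l.den U = 0 := by
  rw [Coc.den, l.card_Phi, U.inv_val, U.val_inv, sub_self]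

end Nat

end Pool.Agent.H71.DB
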