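import Pool.Agent.H71.DB.GBass

/-!
# The full rational source of the assembly map in degree one

For a commutative ring `R` and a group `G`:

* `ColimK1 R G` is the colimit of `K₁(R[F])` over the finite subgroups `F` of `G`, with respect to
  the restrictions `F → F'` of the conjugations `x ↦ g x g⁻¹`, `g F g⁻¹ ⊆ F'`;
* `H1K0 R G` is the abelian group generated by the symbols `[F, x, z]` with `F` a finite subgroup of
  `G`, `x ∈ K₀(R[F])` and `z` in the centralizer `Z_G(F)`, modulo additivity in `x` and in `z` and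
  `[F', c_g(x), z'] = [F, x, g⁻¹ z' g]` for `g F g⁻¹ ⊆ F'`, `z' ∈ Z_G(F')`; it is the tensor product
  of the functors `F ↦ K₀(R[F])` and `F ↦ H₁(Z_G(F))` over the category of finite subgroups;
* `fullAssembly R G : ColimK1 R G × H1K0 R G → K₁(R[G])` is given by the inclusions `F → G` on the
  first factor, and sends `[F, [e], z]` to the class of `1 + e (z - 1)`.
-/

set_option autoImplicit false

open Matrix

universe u v w

namespace Pool.Agent.H71.DB

open Pool.Agent.H71.FJ (MatEquiv IdemMat K0 K0.mk K0.lift K0.lift_mk K0.hom_ext K0.map)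
open Pool.Agent.H95.WH (K1 K1.mk K1.map K1.map_mk K1.map_map K1_map_conj FamSub conjHom FinSub)

section Groups

/-- `K₁(R[H])` -/
def KG1 (R : Type u) [CommRing R] (H : Type v) [Group H] : Type (max u v) := K1 (MonoidAlgebra R H)

noncomputable instance instKG1 (R : Type u) [CommRing R] (H : Type v) [Group H] :
    AddCommGroup (KG1 R H) := Pool.Agent.H95.WH.instK1 (MonoidAlgebra R H)

/-- The homomorphism `K₁(R[H]) → K₁(R[H'])` induced by `φ : H → H'`. -/
noncomputable def KG1.map (R : Type u) [CommRing R] {H H' : Type v} [Group H] [Group H']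
    (φ : H →* H') : KG1 R H →+ KG1 R H' := K1.map (MonoidAlgebra.mapDomainRingHom R φ)

/-- `K₀(R[H])` -/
def KG0 (R : Type u) [CommRing R] (H : Type v) [Group H] : Type (max u v) := K0 (MonoidAlgebra R H)

noncomputable instance instKG0 (R : Type u) [CommRing R] (H : Type v) [Group H] :
    AddCommGroup (KG0 R H) := Pool.Agent.H71.FJ.instK0 (MonoidAlgebra R H)

/-- The homomorphism `K₀(R[H]) → K₀(R[H'])` induced by `φ : H → H'`. -/
noncomputable def KG0.map (R : Type u) [CommRing R] {H H' : Type v} [Group H] [Group H']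
    (φ : H →* H') : KG0 R H →+ KG0 R H' := K0.map (MonoidAlgebra.mapDomainRingHom R φ)

section Fin

variable (R : Type u) [CommRing R] (G : Type v) [Group G]

/-- `K₁(R[F])` for a finite subgroup `F` of `G`. -/
def FK1 (F : FamSub G FinSub) : Type (max u v) := KG1 R F.1

noncomputable instance instFK1 (F : FamSub G FinSub) : AddCommGroup (FK1 R G F) := instKG1 R F.1

/-- The homomorphism `K₁(R[F]) → K₁(R[F'])` given by `x ↦ g x g⁻¹` if `g F g⁻¹ ⊆ F'`. -/
noncomputable def FK1.conj (F F' : FamSub G FinSub) (g : G) (h : ∀ x ∈ F.1, g * x * g⁻¹ ∈ F'.1) :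
    FK1 R G F →+ FK1 R G F' := KG1.map R (conjHom g F.1 F'.1 h)

/-- The homomorphism `K₁(R[F]) → K₁(R[G])` given by the inclusion `F → G`. -/
noncomputable def FK1.incl (F : FamSub G FinSub) : FK1 R G F →+ KG1 R G := KG1.map R F.1.subtype

/-- `K₀(R[F])` for a finite subgroup `F` of `G`. -/
def FK0 (F : FamSub G FinSub) : Type (max u v) := KG0 R F.1

noncomputable instance instFK0 (F : FamSub G FinSub) : AddCommGroup (FK0 R G F) := instKG0 R F.1

/-- The homomorphism `K₀(R[F]) → K₀(R[F'])` given by `x ↦ g x g⁻¹` if `g F g⁻¹ ⊆ F'`. -/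
noncomputable def FK0.conj (F F' : FamSub G FinSub) (g : G) (h : ∀ x ∈ F.1, g * x * g⁻¹ ∈ F'.1) :
    FK0 R G F →+ FK0 R G F' := KG0.map R (conjHom g F.1 F'.1 h)

/-- The homomorphism `K₀(R[F]) → K₀(R[G])` given by the inclusion `F → G`. -/
noncomputable def FK0.incl (F : FamSub G FinSub) : FK0 R G F →+ KG0 R G := KG0.map R F.1.subtype

end Fin

end Groups

section Colim

variable (R : Type u) [CommRing R] (G : Type v) [Group G]

/-- `⨁_F K₁(R[F])` over the finite subgroups of `G`. -/
def SumK1 : Type (max u v) := DirectSum (FamSub G FinSub) (fun F => FK1 R G F)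

noncomputable instance instSumK1 : AddCommGroup (SumK1 R G) :=
  DirectSum.instAddCommGroup (β := fun F : FamSub G FinSub => FK1 R G F)

/-- The inclusion of the summand of `F`. -/
noncomputable def inc1 (F : FamSub G FinSub) : FK1 R G F →+ SumK1 R G :=
  open scoped Classical in DirectSum.of (fun F : FamSub G FinSub => FK1 R G F) F

/-- The relation `c_g(x) - x`. -/
noncomputable def rel1 (F F' : FamSub G FinSub) (g : G) (h : ∀ x ∈ F.1, g * x * g⁻¹ ∈ F'.1)
    (x : FK1 R G F) : SumK1 R G :=
  inc1 R G F' (FK1.conj R G F F' g h x) - inc1 R G F x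

/-- The relations of the colimit. -/
noncomputable def colimRel1 : AddSubgroup (SumK1 R G) :=
  AddSubgroup.closure {z | ∃ F F' g h x, z = rel1 R G F F' g h x}

/-- The colimit of `K₁(R[F])` over the finite subgroups of `G`. -/
def ColimK1 : Type (max u v) := SumK1 R G ⧸ colimRel1 R G

noncomputable instance instColimK1 : AddCommGroup (ColimK1 R G) :=
  QuotientAddGroup.Quotient.addCommGroup (colimRel1 R G)

/-- The assembly map on the direct sum, given by the inclusions `F → G`. -/
noncomputable def assemblySum1 : SumK1 R G →+ KG1 R G :=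
  open scoped Classical in
  DirectSum.toAddMonoid fun F : FamSub G FinSub => FK1.incl R G F

/-- The homomorphism given on the summands. -/
noncomputable def sumLift1 {M : Type w} [AddCommGroup M]
    (f : ∀ F : FamSub G FinSub, FK1 R G F →+ M) : SumK1 R G →+ M :=
  open scoped Classical in DirectSum.toAddMonoid f

theorem sumLift1_inc {M : Type w} [AddCommGroup M]
    (f : ∀ F : FamSub G FinSub, FK1 R G F →+ M) (F : FamSub G FinSub)
    (x : FK1 R G F) : sumLift1 R G f (inc1 R G F x) = f F x := by
  classical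
  exact DirectSum.toAddMonoid_of (β := fun F : FamSub G FinSub => FK1 R G F) _ F x

theorem sum1_induction {P : SumK1 R G → Prop} (h0 : P 0)
    (h1 : ∀ (F : FamSub G FinSub) (x : FK1 R G F), P (inc1 R G F x))
    (h2 : ∀ a b, P a → P b → P (a + b)) (y : SumK1 R G) : P y := by
  classical
  exact DirectSum.induction_on (β := fun F : FamSub G FinSub => FK1 R G F) y h0 h1 h2

theorem assemblySum1_inc (F : FamSub G FinSub) (x : FK1 R G F) :
    assemblySum1 R G (inc1 R G F x) = FK1.incl R G F x :=
  sumLift1_inc R G (fun F : FamSub G FinSub => FK1.incl R G F) F x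

theorem colimRel1_le : colimRel1 R G ≤ (assemblySum1 R G).ker := by
  rw [colimRel1, AddSubgroup.closure_le]
  rintro z ⟨F, F', g, h, x, rfl⟩
  change assemblySum1 R G _ = 0
  rw [rel1, map_sub, assemblySum1_inc, assemblySum1_inc]
  exact sub_eq_zero.2 (Pool.Agent.H71.DO.ind_conj R g F.1 F'.1 h x)

/-- The assembly map on the colimit. -/
noncomputable def assembly1 : ColimK1 R G →+ KG1 R G :=
  QuotientAddGroup.lift (colimRel1 R G) (assemblySum1 R G) (colimRel1_le R G)

end Colim

section H1K0

variable (R : Type u) [CommRing R] (G : Type v) [Group G]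

/-- The symbols `[F, x, z]`. -/
structure Sym where
  /-- a finite subgroup -/
  F : FamSub G FinSub
  /-- a class in `K₀` of its group ring -/
  x : FK0 R G F
  /-- an element of its centralizer -/
  z : Subgroup.centralizer (F.1 : Set G)

variable {G}

theorem conjCent_mem (g : G) (F F' : Subgroup G) (h : ∀ x ∈ F, g * x * g⁻¹ ∈ F')
    (z : Subgroup.centralizer (F' : Set G)) :
    g⁻¹ * z * g ∈ Subgroup.centralizer (F : Set G) := by
  rw [Subgroup.mem_centralizer_iff]
  intro a ha
  have h1 := Subgroup.mem_centralizer_iff.1 z.2 _ (h a ha)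
  calc a * (g⁻¹ * z * g) = g⁻¹ * (g * a * g⁻¹ * z) * g := by group
    _ = g⁻¹ * (z * (g * a * g⁻¹)) * g := by rw [h1]
    _ = _ := by group

/-- The element `g⁻¹ z g` of `Z_G(F)` for `z ∈ Z_G(F')`, `g F g⁻¹ ⊆ F'`. -/
def conjCent (g : G) (F F' : Subgroup G) (h : ∀ x ∈ F, g * x * g⁻¹ ∈ F')
    (z : Subgroup.centralizer (F' : Set G)) : Subgroup.centralizer (F : Set G) :=
  ⟨g⁻¹ * z * g, conjCent_mem g F F' h z⟩

variable (G)

/-- The symbol `[F, x, z]`. -/
noncomputable def symOf (F : FamSub G FinSub) (x : FK0 R G F)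
    (z : Subgroup.centralizer (F.1 : Set G)) : FreeAbelianGroup (Sym R G) :=
  FreeAbelianGroup.of ⟨F, x, z⟩

/-- The relation of additivity in `x`. -/
noncomputable def symX (F : FamSub G FinSub) (x y : FK0 R G F)
    (z : Subgroup.centralizer (F.1 : Set G)) : FreeAbelianGroup (Sym R G) :=
  symOf R G F (x + y) z - (symOf R G F x z + symOf R G F y z)

/-- The relation of additivity in `z`. -/
noncomputable def symZ (F : FamSub G FinSub) (x : FK0 R G F)
    (z z' : Subgroup.centralizer (F.1 : Set G)) : FreeAbelianGroup (Sym R G) :=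
  symOf R G F x (z * z') - (symOf R G F x z + symOf R G F x z')

/-- The relation `[F', c_g(x), z'] = [F, x, g⁻¹ z' g]`. -/
noncomputable def symC (F F' : FamSub G FinSub) (g : G) (h : ∀ x ∈ F.1, g * x * g⁻¹ ∈ F'.1)
    (x : FK0 R G F) (z : Subgroup.centralizer (F'.1 : Set G)) :
    FreeAbelianGroup (Sym R G) :=
  symOf R G F' (FK0.conj R G F F' g h x) z - symOf R G F x (conjCent g F.1 F'.1 h z)

/-- The relations: additivity in `x` and in `z` and `[F', c_g(x), z'] = [F, x, g⁻¹ z' g]`. -/
noncomputable def SymRel : AddSubgroup (FreeAbelianGroup (Sym R G)) :=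
  AddSubgroup.closure
    ({w | ∃ F x y z, w = symX R G F x y z} ∪ {w | ∃ F x z z', w = symZ R G F x z z'} ∪
      {w | ∃ F F' g h x z, w = symC R G F F' g h x z})

/-- The group generated by the symbols `[F, x, z]`. -/
def H1K0 : Type (max u v) := FreeAbelianGroup (Sym R G) ⧸ SymRel R G

noncomputable instance instH1K0 : AddCommGroup (H1K0 R G) :=
  QuotientAddGroup.Quotient.addCommGroup (SymRel R G)

variable {G}

theorem cent_comm {F : Subgroup G} (z : Subgroup.centralizer (F : Set G)) (a : F) :
    F.subtype a * (z : G) = (z : G) * F.subtype a :=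
  Subgroup.mem_centralizer_iff.1 z.2 a a.2

/-- The homomorphism `K₀(R[F]) → K₁(R[G])`, `[e] ↦ [1 + e (z - 1)]` for `z ∈ Z_G(F)`. -/
noncomputable def cbass (F : FamSub G FinSub) (z : Subgroup.centralizer (F.1 : Set G)) :
    FK0 R G F →+ KG1 R G :=
  gbass R F.1.subtype (z : G) (cent_comm z)

/-- The value of the assembly map on a symbol, the class of `1 + e (z - 1)` for `x = [e]`. -/
noncomputable def symVal (s : Sym R G) : KG1 R G := cbass R s.F s.z s.x

variable (G)

theorem symRel_le : SymRel R G ≤ (FreeAbelianGroup.lift (symVal R (G := G))).ker := by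
  rw [SymRel, AddSubgroup.closure_le]
  rintro w ((⟨F, x, y, z, rfl⟩ | ⟨F, x, z, z', rfl⟩) | ⟨F, F', g, h, x, z, rfl⟩)
  · change FreeAbelianGroup.lift (symVal R) _ = 0
    rw [symX, symOf, symOf, symOf, map_sub, map_add, FreeAbelianGroup.lift_apply_of,
      FreeAbelianGroup.lift_apply_of, FreeAbelianGroup.lift_apply_of, symVal, symVal, symVal,
      map_add, sub_self]
  · change FreeAbelianGroup.lift (symVal R) _ = 0
    rw [symZ, symOf, symOf, symOf, map_sub, map_add, FreeAbelianGroup.lift_apply_of,
      FreeAbelianGroup.lift_apply_of, FreeAbelianGroup.lift_apply_of, sub_eq_zero]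
    exact gbass_mul R F.1.subtype (z : G) (z' : G) (cent_comm z) (cent_comm z')
      (cent_comm (z * z')) x
  · change FreeAbelianGroup.lift (symVal R) _ = 0
    rw [symC, symOf, symOf, map_sub, FreeAbelianGroup.lift_apply_of,
      FreeAbelianGroup.lift_apply_of, sub_eq_zero]
    change gbass R F'.1.subtype (z : G) (cent_comm z) (K0.map _ x) =
      gbass R F.1.subtype (g⁻¹ * z * g) (cent_comm (conjCent g F.1 F'.1 h z)) x
    rw [gbass_comp]
    apply gbass_conj R _ _ _ _ g
    · intro a
      rfl
    · group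

/-- The assembly map on the symbols. -/
noncomputable def assemblyH : H1K0 R G →+ KG1 R G :=
  QuotientAddGroup.lift (SymRel R G) (FreeAbelianGroup.lift (symVal R)) (symRel_le R G)

/-- The rational source of the assembly map in degree one. -/
abbrev Source : Type (max u v) := ColimK1 R G × H1K0 R G

/-- The assembly map in degree one on the full rational source. -/
noncomputable def fullAssembly : Source R G →+ KG1 R G :=
  (assembly1 R G).coprod (assemblyH R G)

end H1K0

section Rational

/-- The homomorphism `f` becomes injective after tensoring with `ℚ` over `ℤ`. -/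
def RatInj {A : Type u} [AddCommGroup A] {B : Type v} [AddCommGroup B] (f : A →+ B) : Prop :=
  Function.Injective (LinearMap.lTensor ℚ f.toIntLinearMap)

/-- Every element of `Z` which is killed by all homomorphisms `Z → ℤ_p` has finite order in the
abelianization of `Z`. -/
def PadicSep (p : ℕ) [Fact p.Prime] (Z : Type v) [Group Z] : Prop :=
  ∀ z : Z, (∀ f : Z →* Multiplicative ℤ_[p], f z = 1) → ∃ m : ℕ, m ≠ 0 ∧ z ^ m ∈ commutator Z

end Rational

end Pool.Agent.H71.DB
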