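import Pool.Agent.H71.DB.Defs

/-!
# The source of the assembly map in degree zero

`ColimK0 R G` is the colimit of `K₀(R[F])` over the finite subgroups `F` of `G`, with respect to
the restrictions `F → F'` of the conjugations `x ↦ g x g⁻¹`, `g F g⁻¹ ⊆ F'`, and
`assembly0 R G : ColimK0 R G → K₀(R[G])` is given by the inclusions `F → G`.
-/

set_option autoImplicit false

universe u v w

namespace Pool.Agent.H71.DB

open Pool.Agent.H95.WH (FamSub conjHom FinSub)

variable (R : Type u) [CommRing R] (G : Type v) [Group G]

/-- `⨁_F K₀(R[F])` over the finite subgroups of `G`. -/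
def SumK0 : Type (max u v) := DirectSum (FamSub G FinSub) (fun F => FK0 R G F)

noncomputable instance instSumK0 : AddCommGroup (SumK0 R G) :=
  DirectSum.instAddCommGroup (β := fun F : FamSub G FinSub => FK0 R G F)

/-- The inclusion of the summand of `F`. -/
noncomputable def inc0 (F : FamSub G FinSub) : FK0 R G F →+ SumK0 R G :=
  open scoped Classical in DirectSum.of (fun F : FamSub G FinSub => FK0 R G F) F

/-- The relation `c_g(x) - x`. -/
noncomputable def rel0 (F F' : FamSub G FinSub) (g : G) (h : ∀ x ∈ F.1, g * x * g⁻¹ ∈ F'.1)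
    (x : FK0 R G F) : SumK0 R G :=
  inc0 R G F' (FK0.conj R G F F' g h x) - inc0 R G F x

/-- The relations of the colimit. -/
noncomputable def colimRel0 : AddSubgroup (SumK0 R G) :=
  AddSubgroup.closure {z | ∃ F F' g h x, z = rel0 R G F F' g h x}

/-- The colimit of `K₀(R[F])` over the finite subgroups of `G`. -/
def ColimK0 : Type (max u v) := SumK0 R G ⧸ colimRel0 R G

noncomputable instance instColimK0 : AddCommGroup (ColimK0 R G) :=
  QuotientAddGroup.Quotient.addCommGroup (colimRel0 R G)

/-- The assembly map on the direct sum, given by the inclusions `F → G`. -/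
noncomputable def assemblySum0 : SumK0 R G →+ KG0 R G :=
  open scoped Classical in
  DirectSum.toAddMonoid fun F : FamSub G FinSub => FK0.incl R G F

/-- The homomorphism given on the summands. -/
noncomputable def sumLift0 {M : Type w} [AddCommGroup M]
    (f : ∀ F : FamSub G FinSub, FK0 R G F →+ M) : SumK0 R G →+ M :=
  open scoped Classical in DirectSum.toAddMonoid f

theorem sumLift0_inc {M : Type w} [AddCommGroup M]
    (f : ∀ F : FamSub G FinSub, FK0 R G F →+ M) (F : FamSub G FinSub)
    (x : FK0 R G F) : sumLift0 R G f (inc0 R G F x) = f F x := by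
  classical
  exact DirectSum.toAddMonoid_of (β := fun F : FamSub G FinSub => FK0 R G F) _ F x

theorem sum0_induction {P : SumK0 R G → Prop} (h0 : P 0)
    (h1 : ∀ (F : FamSub G FinSub) (x : FK0 R G F), P (inc0 R G F x))
    (h2 : ∀ a b, P a → P b → P (a + b)) (y : SumK0 R G) : P y := by
  classical
  exact DirectSum.induction_on (β := fun F : FamSub G FinSub => FK0 R G F) y h0 h1 h2

theorem assemblySum0_inc (F : FamSub G FinSub) (x : FK0 R G F) :
    assemblySum0 R G (inc0 R G F x) = FK0.incl R G F x :=
  sumLift0_inc R G (fun F : FamSub G FinSub => FK0.incl R G F) F x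

theorem colimRel0_le : colimRel0 R G ≤ (assemblySum0 R G).ker := by
  rw [colimRel0, AddSubgroup.closure_le]
  rintro z ⟨F, F', g, h, x, rfl⟩
  change assemblySum0 R G _ = 0
  rw [rel0, map_sub, assemblySum0_inc, assemblySum0_inc]
  exact sub_eq_zero.2 (Pool.Agent.H71.FJ.ind_conj R g F.1 F'.1 h x)

/-- The assembly map in degree zero. -/
noncomputable def assembly0 : ColimK0 R G →+ KG0 R G :=
  QuotientAddGroup.lift (colimRel0 R G) (assemblySum0 R G) (colimRel0_le R G)

end Pool.Agent.H71.DB
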