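import Pool.Agent.H71.DB.Coc
import Pool.Agent.H71.DB.Bass

/-!
# Lifting the Dennis trace

For a field `K` we use a torsion free ring `Λ` (`K` itself in characteristic zero, the Witt vectors
in characteristic `p`) and quotients `B n` of `Λ` with nilpotent kernel over `K`. A cocycle with
values in `Λ` defines homomorphisms `K₁(K[G]) → B n`.
-/

set_option autoImplicit false

open Matrix

universe u v w

namespace Pool.Agent.H71.DB

open Pool.Agent.H71.FJ (LiftSys liftSysZero liftSysP NilKer mapRingHom_surj)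
open Pool.Agent.H95.WH (K1 K1.mk K1.unit K1.map K1.lift K1.lift_mk K1.map_mk stab stabMat
  K1.mapU K1.hom_ext)

/-- A lifting system with a torsion free ring. -/
structure BLift (K : Type u) [Field K] where
  sys : LiftSys K
  /-- the ring -/
  Lam : Type u
  inst : CommRing Lam
  tf : ∀ (m : ℤ) (x : Lam), m ≠ 0 → (m : Lam) * x = 0 → x = 0
  /-- the projections -/
  th : ∀ n, Lam →+* sys.B n
  surj : ∀ n, Function.Surjective (th n)
  q : ℤ
  hker : ∀ (n : ℕ) (b : sys.B n), sys.π n b = 0 → ∃ b' : sys.B n, b = (q : sys.B n) * b'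
  hq : ∀ n : ℕ, (q : sys.B n) ^ (n + 1) = 0
  joint : ∀ x : Lam, (∀ n, th n x = 0) → x = 0

instance {K : Type u} [Field K] (L : BLift K) : CommRing L.Lam := L.inst

/-- Characteristic zero. -/
noncomputable def bLiftZero (K : Type u) [Field K] [CharZero K] : BLift K where
  sys := liftSysZero K
  Lam := K
  inst := inferInstance
  tf m x hm h := by
    rcases mul_eq_zero.1 h with h | h
    · exact absurd (by exact_mod_cast h) hm
    · exact h
  th _ := RingHom.id K
  surj _ := Function.surjective_id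
  q := 0
  hker n b hb := ⟨0, by
    have h : b = 0 := hb
    rw [h, mul_zero]⟩
  hq n := by rw [Int.cast_zero, zero_pow (Nat.succ_ne_zero n)]
  joint x h := h 0

section CharP

variable (p : ℕ) [hp : Fact p.Prime] (K : Type u) [Field K] [CharP K p] [PerfectRing K p]

/-- Characteristic `p`. -/
noncomputable def bLiftP : BLift K where
  sys := liftSysP p K
  Lam := WittVector p K
  inst := inferInstance
  tf m x hm h := by
    rcases mul_eq_zero.1 h with h | h
    · exfalso
      apply hm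
      exact Pool.Agent.H71.FJ.witt_int p K m (fun n => by rw [h]; exact dvd_zero _)
    · exact h
  th n := Ideal.Quotient.mk _
  surj n := Ideal.Quotient.mk_surjective
  q := p
  hker n b hb := by
    obtain ⟨w, rfl⟩ := Ideal.Quotient.mk_surjective b
    have hb' : WittVector.constantCoeff w = 0 := hb
    have hw : w ∈ RingHom.ker (WittVector.constantCoeff : WittVector p K →+* K) := hb'
    rw [WittVector.ker_constantCoeff] at hw
    obtain ⟨c, rfl⟩ := Ideal.mem_span_singleton'.1 hw
    refine ⟨Ideal.Quotient.mk _ c, ?_⟩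
    rw [map_mul, map_natCast, Int.cast_natCast, mul_comm]
    rfl
  hq n := by
    have h : ((p : ℤ) : (liftSysP p K).B n) ^ (n + 1) =
        Ideal.Quotient.mk (Ideal.span {(p : WittVector p K) ^ (n + 1)})
          ((p : WittVector p K) ^ (n + 1)) := by
      rw [map_pow, map_natCast, Int.cast_natCast]
      rfl
    rw [h]
    exact Ideal.Quotient.eq_zero_iff_mem.2 (Ideal.mem_span_singleton_self _)
  joint x h := by
    by_contra hx
    obtain ⟨m, b, hb0, hb⟩ := WittVector.exists_eq_pow_p_mul x hx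
    have h1 : (p : WittVector p K) ^ (m + 1) ∣ x :=
      Ideal.mem_span_singleton.1 (Ideal.Quotient.eq_zero_iff_mem.1 (h m))
    obtain ⟨c, hc⟩ := h1
    have hp0 : (p : WittVector p K) ^ m ≠ 0 := pow_ne_zero m (WittVector.p_nonzero p K)
    have h2 : b = (p : WittVector p K) * c := by
      apply mul_left_cancel₀ hp0
      rw [← hb, hc, pow_succ]
      ring
    apply hb0
    have h3 : WittVector.constantCoeff b = 0 := by
      rw [h2, map_mul, map_natCast, CharP.cast_eq_zero, zero_mul]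
    exact h3

end CharP

section Unit

theorem exists_lift_unit {R : Type*} [Ring R] {S : Type*} [Ring S] {φ : R →+* S}
    (hs : Function.Surjective φ) (h : NilKer φ) (u : Sˣ) : ∃ v : Rˣ, φ v = u := by
  obtain ⟨a, ha⟩ := hs u
  obtain ⟨b, hb⟩ := hs ((u⁻¹ : Sˣ) : S)
  have h1 : IsUnit (a * b) := by
    have h2 : IsNilpotent (1 - a * b) := by
      apply h.isNilpotent
      rw [map_sub, map_mul, map_one, ha, hb, Units.mul_inv, sub_self]
    have h3 := h2.isUnit_one_sub
    rwa [sub_sub_cancel] at h3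
  have h1' : IsUnit (b * a) := by
    have h2 : IsNilpotent (1 - b * a) := by
      apply h.isNilpotent
      rw [map_sub, map_mul, map_one, ha, hb, Units.inv_mul, sub_self]
    have h3 := h2.isUnit_one_sub
    rwa [sub_sub_cancel] at h3
  obtain ⟨c, hc⟩ := h1
  obtain ⟨d, hd⟩ := h1'
  have e1 : a * (b * ((c⁻¹ : Rˣ) : R)) = 1 := by rw [← mul_assoc, ← hc, Units.mul_inv]
  have e2 : ((d⁻¹ : Rˣ) : R) * b * a = 1 := by rw [mul_assoc, ← hd, Units.inv_mul]
  have e3 : ((d⁻¹ : Rˣ) : R) * b = b * ((c⁻¹ : Rˣ) : R) := by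
    calc ((d⁻¹ : Rˣ) : R) * b = ((d⁻¹ : Rˣ) : R) * b * (a * (b * ((c⁻¹ : Rˣ) : R))) := by
          rw [e1, mul_one]
      _ = (((d⁻¹ : Rˣ) : R) * b * a) * (b * ((c⁻¹ : Rˣ) : R)) := by simp only [mul_assoc]
      _ = _ := by rw [e2, one_mul]
  refine ⟨⟨a, b * ((c⁻¹ : Rˣ) : R), e1, by rw [← e3]; exact e2⟩, ha⟩

end Unit

section Den

variable {G : Type v} [Group G]

theorem Coc.phi_pow_aux {S : Type u} [CommRing S] (l : Coc G S) {ι : Type*} [Fintype ι]
    [DecidableEq ι] (X : Matrix ι ι (MonoidAlgebra S G)) (m : ℕ) :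
    ∀ i : ℕ, l.Phi (X ^ i) (X ^ (m + 1)) = ((m + 1 : ℕ) : S) * l.Phi (X ^ (i + m)) X := by
  induction m with
  | zero =>
    intro i
    rw [zero_add, pow_one, add_zero, Nat.cast_one, one_mul]
  | succ m ih =>
    intro i
    have h := l.Phi_cocycle (X ^ i) (X ^ (m + 1)) X
    rw [← pow_succ X (m + 1), ← pow_add, ← pow_succ', ih (i + 1)] at h
    rw [← h]
    have e : i + 1 + m = i + (m + 1) := by ring
    rw [e]
    push_cast
    ring

theorem Coc.phi_pow {S : Type u} [CommRing S] (l : Coc G S)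
    (tf : ∀ (m : ℤ) (x : S), m ≠ 0 → (m : S) * x = 0 → x = 0) {ι : Type*} [Fintype ι]
    [DecidableEq ι] (X : Matrix ι ι (MonoidAlgebra S G)) (m : ℕ) : l.Phi (X ^ m) X = 0 := by
  have h := l.phi_pow_aux X m 0
  rw [pow_zero, l.Phi_one_left, zero_add] at h
  apply tf ((m + 1 : ℕ) : ℤ) _ (by exact_mod_cast Nat.succ_ne_zero m)
  rw [Int.cast_natCast]
  exact h.symm

variable {K : Type u} [Field K] (L : BLift K)

theorem Coc.phi_pow_th (l : Coc G L.Lam) (n : ℕ) {ι : Type*} [Fintype ι] [DecidableEq ι]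
    (X : Matrix ι ι (MonoidAlgebra (L.sys.B n) G)) (m : ℕ) :
    (l.mapS (L.th n)).Phi (X ^ m) X = 0 := by
  have hs : Function.Surjective (MonoidAlgebra.mapRingHom G (L.th n)) := by
    intro a
    induction a using MonoidAlgebra.induction_linear with
    | zero => exact ⟨0, map_zero _⟩
    | add a b ha hb =>
      obtain ⟨a', rfl⟩ := ha
      obtain ⟨b', rfl⟩ := hb
      exact ⟨a' + b', map_add _ _ _⟩
    | single g r =>
      obtain ⟨r', rfl⟩ := L.surj n r
      exact ⟨MonoidAlgebra.single g r', MonoidAlgebra.mapRingHom_single _ _ _⟩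
  choose s hs using hs
  have h1 : (X.map s).map (MonoidAlgebra.mapRingHom G (L.th n)) = X := by
    refine Matrix.ext fun i j => ?_
    rw [Matrix.map_apply, Matrix.map_apply, hs]
  have h2 : X ^ m = ((X.map s) ^ m).map (MonoidAlgebra.mapRingHom G (L.th n)) := by
    have e := map_pow (MonoidAlgebra.mapRingHom G (L.th n)).mapMatrix (X.map s) m
    rw [RingHom.mapMatrix_apply, RingHom.mapMatrix_apply, h1] at e
    exact e.symm
  have h3 := l.Phi_mapS (L.th n) ((X.map s) ^ m) (X.map s)
  rw [h1, ← h2, l.phi_pow L.tf, map_zero] at h3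
  exact h3

theorem exists_smul_of_map_zero (n : ℕ) (a : MonoidAlgebra (L.sys.B n) G)
    (h : MonoidAlgebra.mapRingHom G (L.sys.π n) a = 0) :
    ∃ a' : MonoidAlgebra (L.sys.B n) G, a = L.q • a' := by
  have h1 : ∀ g, ∃ b' : L.sys.B n, a.coeff g = (L.q : L.sys.B n) * b' := by
    intro g
    apply L.hker
    have h2 := congrArg (fun z => MonoidAlgebra.coeff z g) h
    simpa using h2
  choose b hb using h1
  refine ⟨∑ g ∈ a.coeff.support, MonoidAlgebra.single g (b g), ?_⟩
  rw [Finset.smul_sum]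
  conv_lhs => rw [← MonoidAlgebra.sum_coeff_single a]
  rw [Finsupp.sum]
  refine Finset.sum_congr rfl fun g _ => ?_
  rw [hb g]
  apply MonoidAlgebra.coeff_injective
  rw [MonoidAlgebra.coeff_smul, MonoidAlgebra.coeff_single, MonoidAlgebra.coeff_single,
    Finsupp.smul_single, zsmul_eq_mul]

theorem Coc.den_ker (l : Coc G L.Lam) (n : ℕ) {ι : Type*} [Fintype ι] [DecidableEq ι]
    (W : (Matrix ι ι (MonoidAlgebra (L.sys.B n) G))ˣ)
    (hW : W.val.map (MonoidAlgebra.mapRingHom G (L.sys.π n)) = 1) :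
    (l.mapS (L.th n)).den W = 0 := by
  obtain ⟨X, hX⟩ : ∃ X : Matrix ι ι (MonoidAlgebra (L.sys.B n) G), W.val = 1 + L.q • X := by
    have h1 : ∀ i j, ∃ a' : MonoidAlgebra (L.sys.B n) G, (W.val - 1) i j = L.q • a' := by
      intro i j
      apply exists_smul_of_map_zero
      have h2 := congrFun (congrFun hW i) j
      rw [Matrix.map_apply] at h2
      rw [Matrix.sub_apply, map_sub, h2]
      by_cases hij : i = j
      · rw [hij, Matrix.one_apply_eq, Matrix.one_apply_eq, map_one, sub_self]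
      · rw [Matrix.one_apply_ne hij, Matrix.one_apply_ne hij, map_zero, sub_self]
    choose X hX using h1
    refine ⟨Matrix.of X, ?_⟩
    rw [← sub_eq_iff_eq_add']
    refine Matrix.ext fun i j => ?_
    rw [hX]
    rfl
  have hq0 : ∀ Z : Matrix ι ι (MonoidAlgebra (L.sys.B n) G), (L.q ^ (n + 1)) • Z = 0 := by
    intro Z
    refine Matrix.ext fun i j => ?_
    rw [Matrix.smul_apply, Matrix.zero_apply]
    apply MonoidAlgebra.coeff_injective
    ext g
    rw [MonoidAlgebra.coeff_smul, Finsupp.smul_apply, zsmul_eq_mul, Int.cast_pow, L.hq n,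
      zero_mul]
    rfl
  have hgeom : ∀ m : ℕ, (∑ j ∈ Finset.range m, ((-L.q) ^ j) • X ^ j) * (1 + L.q • X) =
      1 - ((-L.q) ^ m) • X ^ m := by
    intro m
    induction m with
    | zero => simp
    | succ m ih =>
      rw [Finset.sum_range_succ, add_mul, ih, mul_add, mul_one, Matrix.smul_mul, Matrix.mul_smul,
        ← pow_succ X m, smul_smul, pow_succ (-L.q) m, mul_neg, neg_smul]
      abel
  have hinv : W.inv = ∑ j ∈ Finset.range (n + 1), ((-L.q) ^ j) • X ^ j := by
    have h1 := hgeom (n + 1)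
    rw [← hX] at h1
    have h2 : ((-L.q) ^ (n + 1)) • X ^ (n + 1) = 0 := by
      rw [neg_pow, mul_smul, hq0, smul_zero]
    rw [h2, sub_zero] at h1
    calc W.inv = (∑ j ∈ Finset.range (n + 1), ((-L.q) ^ j) • X ^ j) * W.val * W.inv := by
          rw [h1, one_mul]
      _ = _ := by rw [mul_assoc, W.val_inv, mul_one]
  have hsm : ∀ (m : ℤ) (A B : Matrix ι ι (MonoidAlgebra (L.sys.B n) G)),
      (l.mapS (L.th n)).Phi A (m • B) = m • (l.mapS (L.th n)).Phi A B := by
    intro m A B
    simp only [Coc.Phi, Matrix.smul_apply, map_zsmul, Finset.smul_sum]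
  have hsm' : ∀ (m : ℤ) (A B : Matrix ι ι (MonoidAlgebra (L.sys.B n) G)),
      (l.mapS (L.th n)).Phi (m • A) B = m • (l.mapS (L.th n)).Phi A B := by
    intro m A B
    simp only [Coc.Phi, Matrix.smul_apply, map_zsmul, Finset.smul_sum, AddMonoidHom.coe_smul,
      Pi.smul_apply]
  have hsum : ∀ m : ℕ, (l.mapS (L.th n)).Phi (∑ j ∈ Finset.range m, ((-L.q) ^ j) • X ^ j) X =
      0 := by
    intro m
    induction m with
    | zero => rw [Finset.sum_range_zero, Coc.Phi_zero_left]
    | succ m ih =>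
      rw [Finset.sum_range_succ, Coc.Phi_add_left, ih, hsm', l.phi_pow_th L n, smul_zero,
        add_zero]
  rw [Coc.den, hX, Coc.Phi_add_right, Coc.Phi_one_right, zero_add, hsm, hinv, hsum, smul_zero]

theorem Coc.den_congr (l : Coc G L.Lam) (n : ℕ) {ι : Type*} [Fintype ι] [DecidableEq ι]
    (U V : (Matrix ι ι (MonoidAlgebra (L.sys.B n) G))ˣ)
    (h : U.val.map (MonoidAlgebra.mapRingHom G (L.sys.π n)) =
      V.val.map (MonoidAlgebra.mapRingHom G (L.sys.π n))) :
    (l.mapS (L.th n)).den U = (l.mapS (L.th n)).den V := by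
  have h1 : (l.mapS (L.th n)).den (U⁻¹ * V) = 0 := by
    apply l.den_ker L n
    rw [Units.val_mul, Matrix.map_mul, ← h, ← Matrix.map_mul, Units.inv_mul,
      Matrix.map_one _ (map_zero _) (map_one _)]
  have h2 : (l.mapS (L.th n)).den (U * (U⁻¹ * V)) = (l.mapS (L.th n)).den U := by
    rw [Coc.den_mul, h1, add_zero]
  rw [← h2, mul_inv_cancel_left]

theorem exists_lift_GL (n : ℕ) {ι : Type*} [Fintype ι] [DecidableEq ι]
    (U : (Matrix ι ι (MonoidAlgebra K G))ˣ) :
    ∃ V : (Matrix ι ι (MonoidAlgebra (L.sys.B n) G))ˣ,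
      V.val.map (MonoidAlgebra.mapRingHom G (L.sys.π n)) = U.val := by
  have hs : Function.Surjective ((MonoidAlgebra.mapRingHom G (L.sys.π n)).mapMatrix :
      Matrix ι ι (MonoidAlgebra (L.sys.B n) G) →+* Matrix ι ι (MonoidAlgebra K G)) := by
    intro X
    choose g hg using mapRingHom_surj (L.sys.surj n) G
    exact ⟨X.map g, by ext i j : 2; simp [hg]⟩
  exact exists_lift_unit hs (((L.sys.nil n).monoidAlgebra G).matrix ι) U

/-- a lift of an invertible matrix -/
noncomputable def liftGL (n : ℕ) {ι : Type*} [Fintype ι] [DecidableEq ι]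
    (U : (Matrix ι ι (MonoidAlgebra K G))ˣ) : (Matrix ι ι (MonoidAlgebra (L.sys.B n) G))ˣ :=
  (exists_lift_GL L n U).choose

theorem liftGL_spec (n : ℕ) {ι : Type*} [Fintype ι] [DecidableEq ι]
    (U : (Matrix ι ι (MonoidAlgebra K G))ˣ) :
    (liftGL L n U).val.map (MonoidAlgebra.mapRingHom G (L.sys.π n)) = U.val :=
  (exists_lift_GL L n U).choose_spec

/-- The lifted Dennis trace `K₁(K[G]) → B n`. -/
noncomputable def Coc.dn (l : Coc G L.Lam) (n : ℕ) : K1 (MonoidAlgebra K G) →+ L.sys.B n :=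
  K1.lift (fun _ U => (l.mapS (L.th n)).den (liftGL L n U))
    (fun _ U V => by
      rw [← Coc.den_mul]
      apply l.den_congr L n
      rw [liftGL_spec, Units.val_mul, Units.val_mul, Matrix.map_mul, liftGL_spec, liftGL_spec])
    (fun m U => by
      rw [← Coc.den_stab _ (liftGL L n U)]
      apply l.den_congr L n
      rw [liftGL_spec]
      have h1 := Pool.Agent.H95.WH.K1.stab_mapU (MonoidAlgebra.mapRingHom G (L.sys.π n))
        (liftGL L n U)
      have h2 := congrArg Units.val h1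
      have h3 : K1.mapU (MonoidAlgebra.mapRingHom G (L.sys.π n)) (liftGL L n U) = U :=
        Units.ext (liftGL_spec L n U)
      rw [h3] at h2
      exact h2.symm)

theorem Coc.dn_map (l : Coc G L.Lam) (n : ℕ) (x : K1 (MonoidAlgebra (L.sys.B n) G)) :
    l.dn L n (K1.map (MonoidAlgebra.mapRingHom G (L.sys.π n)) x) = (l.mapS (L.th n)).dt x := by
  suffices H : (l.dn L n).comp (K1.map (MonoidAlgebra.mapRingHom G (L.sys.π n))) =
    (l.mapS (L.th n)).dt from DFunLike.congr_fun H x
  apply K1.hom_ext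
  intro m U
  rw [AddMonoidHom.comp_apply, K1.map_mk, Coc.dn, K1.lift_mk, Coc.dt_mk]
  apply l.den_congr L n
  rw [liftGL_spec]
  rfl

end Den

end Pool.Agent.H71.DB
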