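import Pool.Agent.H71.DB.Defs0
import Pool.Agent.H71.DB.Main
import Pool.Agent.H71.FJ.Main

/-!
# Rational injectivity in degree zero, for the source presented over `FamSub G FinSub`
-/

set_option autoImplicit false

open scoped Classical

universe u v

namespace Pool.Agent.H71.DB

open Pool.Agent.H95.WH (FamSub conjHom FinSub)
open Pool.Agent.H71.FJ (K0)

variable (k : Type u) [CommRing k] (G : Type v) [Group G]

/-- the subgroup as an element of `FJ.FinSub` -/
def fs {G : Type v} [Group G] (F : FamSub G FinSub) : Pool.Agent.H71.FJ.FinSub G := ⟨F.1, F.2⟩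

/-- the class in `FJ.ColimK0` -/
noncomputable def clF (F : Pool.Agent.H71.FJ.FinSub G) :
    K0 (MonoidAlgebra k F.1) →+ Pool.Agent.H71.FJ.ColimK0 k G :=
  (QuotientAddGroup.mk' (Pool.Agent.H71.FJ.colimRel k G)).comp (Pool.Agent.H71.FJ.inc k G F)

/-- the class in `ColimK0` -/
noncomputable def cl0 (F : FamSub G FinSub) : KG0 k F.1 →+ ColimK0 k G :=
  (QuotientAddGroup.mk' (colimRel0 k G)).comp (inc0 k G F)

theorem cl0_conj (F F' : FamSub G FinSub) (g : G) (h : ∀ x ∈ F.1, g * x * g⁻¹ ∈ F'.1)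
    (x : KG0 k F.1) : cl0 k G F' (KG0.map k (conjHom g F.1 F'.1 h) x) = cl0 k G F x := by
  have h1 : rel0 k G F F' g h x ∈ colimRel0 k G := AddSubgroup.subset_closure ⟨F, F', g, h, x, rfl⟩
  have h2 : QuotientAddGroup.mk' (colimRel0 k G) (rel0 k G F F' g h x) = 0 :=
    (QuotientAddGroup.eq_zero_iff _).2 h1
  rw [rel0, map_sub, sub_eq_zero] at h2
  exact h2

theorem clF_conj (F F' : Pool.Agent.H71.FJ.FinSub G) (g : G) (h : ∀ x ∈ F.1, g * x * g⁻¹ ∈ F'.1)
    (x : K0 (MonoidAlgebra k F.1)) :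
    clF k G F' (Pool.Agent.H71.FJ.ind k (Pool.Agent.H71.FJ.conjHom g F.1 F'.1 h) x) =
      clF k G F x := by
  have h1 : Pool.Agent.H71.FJ.rel k G F F' g h x ∈ Pool.Agent.H71.FJ.colimRel k G :=
    AddSubgroup.subset_closure ⟨F, F', g, h, x, rfl⟩
  have h2 : QuotientAddGroup.mk' (Pool.Agent.H71.FJ.colimRel k G)
      (Pool.Agent.H71.FJ.rel k G F F' g h x) = 0 :=
    (QuotientAddGroup.eq_zero_iff _).2 h1
  rw [Pool.Agent.H71.FJ.rel, map_sub, sub_eq_zero] at h2
  exact h2

/-- the sum-level comparison -/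
noncomputable def cmpSum : SumK0 k G →+ Pool.Agent.H71.FJ.ColimK0 k G :=
  sumLift0 k G fun F : FamSub G FinSub => (clF k G (fs F) : KG0 k F.1 →+ _)

theorem cmpSum_inc (F : FamSub G FinSub) (x : KG0 k F.1) :
    cmpSum k G (inc0 k G F x) = clF k G (fs F) x :=
  sumLift0_inc k G _ F x

/-- The comparison of the two colimits. -/
noncomputable def cmp : ColimK0 k G →+ Pool.Agent.H71.FJ.ColimK0 k G :=
  QuotientAddGroup.lift (colimRel0 k G) (cmpSum k G) (by
    rw [colimRel0, AddSubgroup.closure_le]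
    rintro z ⟨F, F', g, h, x, rfl⟩
    change cmpSum k G _ = 0
    rw [rel0, map_sub, cmpSum_inc, cmpSum_inc, sub_eq_zero]
    exact clF_conj k G (fs F) (fs F') g h x)

/-- the sum-level inverse -/
noncomputable def invSum : Pool.Agent.H71.FJ.SumK0 k G →+ ColimK0 k G :=
  DirectSum.toAddMonoid fun F : Pool.Agent.H71.FJ.FinSub G =>
    (cl0 k G ⟨F.1, F.2⟩ : K0 (MonoidAlgebra k F.1) →+ _)

theorem invSum_inc (F : Pool.Agent.H71.FJ.FinSub G) (x : K0 (MonoidAlgebra k F.1)) :
    invSum k G (Pool.Agent.H71.FJ.inc k G F x) = cl0 k G ⟨F.1, F.2⟩ x := by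
  rw [invSum, Pool.Agent.H71.FJ.inc, DirectSum.toAddMonoid_of]
  rfl

/-- The inverse comparison. -/
noncomputable def cmpInv : Pool.Agent.H71.FJ.ColimK0 k G →+ ColimK0 k G :=
  QuotientAddGroup.lift (Pool.Agent.H71.FJ.colimRel k G) (invSum k G) (by
    rw [Pool.Agent.H71.FJ.colimRel, AddSubgroup.closure_le]
    rintro z ⟨F, F', g, h, x, rfl⟩
    change invSum k G _ = 0
    rw [Pool.Agent.H71.FJ.rel, map_sub, invSum_inc, invSum_inc, sub_eq_zero]
    exact cl0_conj k G ⟨F.1, F.2⟩ ⟨F'.1, F'.2⟩ g h x)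

theorem colim0_induction {P : ColimK0 k G → Prop} (h0 : P 0)
    (h1 : ∀ (F : FamSub G FinSub) (x : KG0 k F.1), P (cl0 k G F x))
    (h2 : ∀ a b, P a → P b → P (a + b)) (z : ColimK0 k G) : P z := by
  obtain ⟨y, rfl⟩ : ∃ y, (QuotientAddGroup.mk' (colimRel0 k G) : SumK0 k G →+ ColimK0 k G) y = z :=
    QuotientAddGroup.mk_surjective z
  induction y using sum0_induction with
  | h0 => rw [map_zero]; exact h0
  | h1 F x => exact h1 F x
  | h2 x y hx hy => rw [map_add]; exact h2 _ _ hx hy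

theorem cmpInv_cmp (z : ColimK0 k G) : cmpInv k G (cmp k G z) = z := by
  induction z using colim0_induction with
  | h0 => rw [map_zero, map_zero]
  | h2 a b ha hb => rw [map_add, map_add, ha, hb]
  | h1 F x =>
    have h1 : cmp k G (cl0 k G F x) = clF k G (fs F) x := cmpSum_inc k G F x
    have h2 : cmpInv k G (clF k G (fs F) x) = cl0 k G F x := invSum_inc k G (fs F) x
    rw [h1, h2]

theorem assembly_cmp (z : ColimK0 k G) :
    Pool.Agent.H71.FJ.assembly k G (cmp k G z) = (assembly0 k G z : K0 (MonoidAlgebra k G)) := by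
  induction z using colim0_induction with
  | h0 =>
    rw [map_zero, map_zero]
    exact (map_zero (assembly0 k G)).symm
  | h2 a b ha hb =>
    rw [map_add, map_add, ha, hb]
    exact (map_add (assembly0 k G) a b).symm
  | h1 F x =>
    have h1 : cmp k G (cl0 k G F x) = clF k G (fs F) x := cmpSum_inc k G F x
    have h2 : assembly0 k G (cl0 k G F x) = KG0.map k F.1.subtype x := assemblySum0_inc k G F x
    rw [h1]
    have h3 : Pool.Agent.H71.FJ.assembly k G (clF k G (fs F) x) =
        Pool.Agent.H71.FJ.ind k F.1.subtype x := by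
      change Pool.Agent.H71.FJ.assemblySum k G (Pool.Agent.H71.FJ.inc k G (fs F) x) = _
      rw [Pool.Agent.H71.FJ.assemblySum, Pool.Agent.H71.FJ.inc, DirectSum.toAddMonoid_of]
      rfl
    exact h3.trans h2.symm

/-- **Rational injectivity of the assembly map in degree zero.** -/
theorem zero_injective (k : Type u) [Field k] (G : Type v) [Group G] : RatInj (assembly0 k G) := by
  apply lTensor_injective
  intro z M hM h
  obtain ⟨m, hm, h1⟩ := Pool.Agent.H71.FJ.kernel_torsion k G (cmp k G z) M hM (by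
    rw [assembly_cmp]
    exact h)
  refine ⟨m, hm, ?_⟩
  rw [← map_zsmul] at h1
  have h2 := congrArg (cmpInv k G) h1
  rw [cmpInv_cmp, map_zero] at h2
  exact h2

end Pool.Agent.H71.DB
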